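import Pool.Agent.R655.LI.Main
import Pool.Agent.Helper777.Prof.P_mag_m
import Pool.Agent.H26R2.IdemLI.Main

set_option autoImplicit false

/-!
Asphericity: the boundary operator of the universal covering.
-/

namespace Pool.Agent.R655.LI

open Function
open Pool.Agent.Helper777.Prof (Wr mag mag_m)
open Pool.Agent.H40R2.Zd (fs fs_single)

open Classical in
/-- The chain `∂ w` of the path with the word `w` (starting at the base point) in the universal
covering: the Fox derivatives of `w`, with values in `ℤ[π₁(K)]`. -/
noncomputable def fox (K : Cx) (w : FreeGroup K.V) : K.V → MonoidAlgebra ℤ K.Pi :=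
  (mag (PresentedGroup.mk (Set.range K.r)) w).v

/-- `K` is aspherical: the boundary operator `C₂ → C₁` of the universal covering is injective. -/
def Asph (K : Cx) : Prop :=
  Injective (Finsupp.linearCombination (MonoidAlgebra ℤ K.Pi) fun j : K.R => fox K (K.r j))

section ext
variable {A B G H : Type} [Group G] [Group H]

/-- extension by zero -/
noncomputable def ex (f : A → B) (α : G →* H) (x : A → MonoidAlgebra ℤ G) : B → MonoidAlgebra ℤ H :=
  Function.extend f (fun a => fs ℤ α (x a)) 0

lemma ex_apply (f : A → B) (hf : Injective f) (α : G →* H) (x : A → MonoidAlgebra ℤ G) (a : A) :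
    ex f α x (f a) = fs ℤ α (x a) := hf.extend_apply _ _ _

lemma ex_notin (f : A → B) (α : G →* H) (x : A → MonoidAlgebra ℤ G) (b : B)
    (hb : ¬ ∃ a, f a = b) : ex f α x b = 0 := Function.extend_apply' _ _ _ hb

lemma ex_add (f : A → B) (hf : Injective f) (α : G →* H) (x y : A → MonoidAlgebra ℤ G) :
    ex f α (x + y) = ex f α x + ex f α y := by
  funext b
  by_cases hb : ∃ a, f a = b
  · obtain ⟨a, rfl⟩ := hb
    simp only [Pi.add_apply, ex_apply f hf, map_add]
  · simp only [Pi.add_apply, ex_notin f α _ b hb, add_zero]

lemma ex_zero (f : A → B) (hf : Injective f) (α : G →* H) : ex f α (0 : A → MonoidAlgebra ℤ G) = 0 := by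
  funext b
  by_cases hb : ∃ a, f a = b
  · obtain ⟨a, rfl⟩ := hb
    simp only [Pi.zero_apply, ex_apply f hf, map_zero]
  · simp only [Pi.zero_apply, ex_notin f α _ b hb]

lemma ex_smul (f : A → B) (hf : Injective f) (α : G →* H) (c : MonoidAlgebra ℤ G)
    (x : A → MonoidAlgebra ℤ G) : ex f α (c • x) = fs ℤ α c • ex f α x := by
  funext b
  by_cases hb : ∃ a, f a = b
  · obtain ⟨a, rfl⟩ := hb
    simp only [Pi.smul_apply, ex_apply f hf, smul_eq_mul, map_mul]
  · simp only [Pi.smul_apply, ex_notin f α _ b hb, smul_zero]

lemma ex_inj (f : A → B) (hf : Injective f) (α : G →* H) (hα : Injective (fs ℤ α))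
    (x : A → MonoidAlgebra ℤ G) (h : ex f α x = 0) : x = 0 := by
  funext a
  have := congrFun h (f a)
  rw [ex_apply f hf] at this
  exact hα (this.trans (map_zero _).symm)

/-- the induced map of the affine groups -/
noncomputable def exW (f : A → B) (hf : Injective f) (α : G →* H) : Wr ℤ G A →* Wr ℤ H B where
  toFun w := ⟨ex f α w.v, α w.m⟩
  map_one' := by
    ext1
    · exact ex_zero f hf α
    · exact map_one α
  map_mul' a b := by
    ext1
    · change ex f α (a.v + (MonoidAlgebra.of ℤ G a.m) • b.v) =
        ex f α a.v + (MonoidAlgebra.of ℤ H (α a.m)) • ex f α b.v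
      rw [ex_add f hf, ex_smul f hf]
      congr 2
      simp [MonoidAlgebra.of_apply, fs_single]
    · exact map_mul α _ _

end ext

lemma fox_sub {K K' : Cx} (i : Sub K K') (w : FreeGroup K.V) :
    fox K' (FreeGroup.map i.v w) = ex i.v i.map (fox K w) := by
  classical
  have : (mag (PresentedGroup.mk (Set.range K'.r))).comp (FreeGroup.map i.v) =
      (exW i.v i.v.injective i.map).comp (mag (PresentedGroup.mk (Set.range K.r))) := by
    ext1 v
    rw [MonoidHom.comp_apply, MonoidHom.comp_apply, FreeGroup.map.of]
    simp only [mag, FreeGroup.lift_apply_of]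
    ext1
    · change (Pi.single (i.v v) 1 : K'.V → MonoidAlgebra ℤ K'.Pi) = ex i.v i.map (Pi.single v 1)
      funext b
      by_cases hb : ∃ a, i.v a = b
      · obtain ⟨a, rfl⟩ := hb
        rw [ex_apply i.v i.v.injective]
        by_cases h : a = v
        · subst h
          rw [Pi.single_eq_same, Pi.single_eq_same, map_one]
        · rw [Pi.single_eq_of_ne h, Pi.single_eq_of_ne (fun h' => h (i.v.injective h')), map_zero]
      · rw [ex_notin i.v _ _ b hb, Pi.single_eq_of_ne]
        rintro rfl
        exact hb ⟨v, rfl⟩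
    · exact (map_of i v).symm
  have h := DFunLike.congr_fun this w
  exact congrArg Wr.v h

lemma fs_inj {G H : Type} [Group G] [Group H] (α : G →* H) (hα : Injective α) :
    Injective (fs ℤ α) := by
  unfold fs
  exact MonoidAlgebra.mapDomain_injective hα

/-- A `π₁`-injective subcomplex of an aspherical complex is aspherical. -/
lemma asph_sub {K K' : Cx} (i : Sub K K') (hi : Injective i.map) (h : Asph K') : Asph K := by
  unfold Asph at h ⊢
  rw [injective_iff_map_eq_zero] at h ⊢
  intro c hc
  have hf := fs_inj i.map hi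
  let c' : K'.R →₀ MonoidAlgebra ℤ K'.Pi := (c.mapRange (fs ℤ i.map) (map_zero _)).embDomain i.c
  have h1 : Finsupp.linearCombination (MonoidAlgebra ℤ K'.Pi) (fun j => fox K' (K'.r j)) c' =
      ex i.v i.map (Finsupp.linearCombination (MonoidAlgebra ℤ K.Pi) (fun j => fox K (K.r j)) c) := by
    rw [Finsupp.linearCombination_embDomain]
    clear hc
    induction c using Finsupp.induction_linear with
    | zero => simp [ex_zero i.v i.v.injective]
    | add a b ha hb =>
      rw [Finsupp.mapRange_add (map_add _), map_add, map_add, ex_add i.v i.v.injective, ha, hb]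
    | single j x =>
      rw [Finsupp.mapRange_single, Finsupp.linearCombination_single,
        Finsupp.linearCombination_single, ex_smul i.v i.v.injective, ← fox_sub, i.comm]
      rfl
  rw [hc, ex_zero i.v i.v.injective] at h1
  have h2 := h _ h1
  have h3 : c.mapRange (fs ℤ i.map) (map_zero _) = 0 :=
    (Finsupp.embDomain_eq_zero).1 h2
  ext1 j
  have h4 := DFunLike.congr_fun h3 j
  rw [Finsupp.mapRange_apply] at h4
  exact hf (h4.trans (map_zero _).symm)

end Pool.Agent.R655.LI
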