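import Mathlib

set_option autoImplicit false

/-!
Free families in free products `G * F(J)`.
-/

namespace Pool.Agent.R655.LI

open Function

lemma inv_self' {A : Type} (σ : Equiv.Perm A) (x : A) : σ⁻¹ (σ x) = x :=
  Equiv.symm_apply_apply σ x

lemma self_inv' {A : Type} (σ : Equiv.Perm A) (x : A) : σ (σ⁻¹ x) = x :=
  Equiv.apply_symm_apply σ x

section tw
variable {Ω F : Type} [Group F]

/-- The permutation `(ω, g) ↦ (σ ω, ℓ ω * g)`. -/
def tw (σ : Equiv.Perm Ω) (l : Ω → F) : Equiv.Perm (Ω × F) where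
  toFun x := (σ x.1, l x.1 * x.2)
  invFun x := (σ⁻¹ x.1, (l (σ⁻¹ x.1))⁻¹ * x.2)
  left_inv x := by simp
  right_inv x := by simp

lemma tw_apply (σ : Equiv.Perm Ω) (l : Ω → F) (ω : Ω) (g : F) :
    tw σ l (ω, g) = (σ ω, l ω * g) := rfl

lemma tw_inv_apply (σ : Equiv.Perm Ω) (l : Ω → F) (ω : Ω) (g : F) :
    (tw σ l)⁻¹ (ω, g) = (σ⁻¹ ω, (l (σ⁻¹ ω))⁻¹ * g) := rfl

end tw

/-- A family whose action on the sheet `ω` is left multiplication by the free generators is free. -/
lemma inj_of_action {I B Ω : Type} [Group B] (x : I → B)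
    (θ : B →* Equiv.Perm (Ω × FreeGroup I)) (ω : Ω)
    (h : ∀ i g, θ (x i) (ω, g) = (ω, FreeGroup.of i * g)) :
    Injective (FreeGroup.lift x : FreeGroup I →* B) := by
  have key : ∀ w : FreeGroup I, ∀ g, θ (FreeGroup.lift x w) (ω, g) = (ω, w * g) := by
    intro w
    induction w using FreeGroup.induction_on with
    | C1 => intro g; simp
    | of i => intro g; rw [FreeGroup.lift_apply_of]; exact h i g
    | inv_of i _ =>
      intro g
      rw [map_inv, map_inv, FreeGroup.lift_apply_of, Equiv.Perm.inv_eq_iff_eq, h, mul_inv_cancel_left]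
    | mul a b ha hb =>
      intro g
      rw [map_mul, map_mul, Equiv.Perm.mul_apply, hb, ha, mul_assoc]
  rw [injective_iff_map_eq_one]
  intro w hw
  have := key w 1
  rw [hw, map_one, Equiv.Perm.one_apply, mul_one, Prod.mk.injEq] at this
  exact this.2.symm

/-- letters -/
abbrev Lt (S : Type) := S ⊕ Bool

/-- partner of a letter -/
def pt {S : Type} : Lt S → Lt S
  | Sum.inl _ => Sum.inr true
  | Sum.inr true => Sum.inr false
  | Sum.inr false => Sum.inr true

/-- The words `x_j = h_j b_j h_j⁻¹` (`h_j` the conjugate of `η` by the partner of `b_j`). -/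
def xj {S W : Type} [Group W] (η : W) (b : Lt S → W) (j : Lt S) : W :=
  ((b (pt j))⁻¹ * η * b (pt j)) * b j * ((b (pt j))⁻¹ * η * b (pt j))⁻¹

/-- The words `y_s = b_s⁻¹ c⁻¹ η c η⁻¹ b_s`. -/
def ys {S W : Type} [Group W] (η : W) (b : Lt S → W) (s : S) : W :=
  (b (Sum.inl s))⁻¹ * ((b (Sum.inr true))⁻¹ * η * b (Sum.inr true) * η⁻¹) * b (Sum.inl s)

/-- the family `Y` -/
def Yf {S W : Type} [Group W] (η : W) (b : Lt S → W) : S ⊕ Lt S → W
  | Sum.inl s => ys η b s
  | Sum.inr j => (b j)⁻¹ * xj η b j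

/-- the family `Z` of the elements to be killed -/
def Zf {S W : Type} [Group W] (ρ : S → W) (b : Lt S → W) : S ⊕ Lt S → W
  | Sum.inl s => ρ s
  | Sum.inr j => b j

/-- the family `X = Z Y` -/
def Xf {S W : Type} [Group W] (η : W) (ρ : S → W) (b : Lt S → W) (i : S ⊕ Lt S) : W :=
  Zf ρ b i * Yf η b i

section nat
variable {S W W' : Type} [Group W] [Group W'] (f : W →* W')

lemma map_xj (η : W) (b : Lt S → W) (j : Lt S) :
    f (xj η b j) = xj (f η) (fun k => f (b k)) j := by
  simp [xj]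

lemma map_ys (η : W) (b : Lt S → W) (s : S) :
    f (ys η b s) = ys (f η) (fun k => f (b k)) s := by
  simp [ys]

lemma map_Yf (η : W) (b : Lt S → W) (i : S ⊕ Lt S) :
    f (Yf η b i) = Yf (f η) (fun k => f (b k)) i := by
  rcases i with s | j
  · exact map_ys f η b s
  · simp only [Yf, map_mul, map_inv, map_xj]

lemma map_Zf (ρ : S → W) (b : Lt S → W) (i : S ⊕ Lt S) :
    f (Zf ρ b i) = Zf (fun s => f (ρ s)) (fun k => f (b k)) i := by
  rcases i with s | j <;> rfl

lemma map_Xf (η : W) (ρ : S → W) (b : Lt S → W) (i : S ⊕ Lt S) :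
    f (Xf η ρ b i) = Xf (f η) (fun s => f (ρ s)) (fun k => f (b k)) i := by
  simp only [Xf, map_mul, map_Yf, map_Zf]

end nat

section X
variable {S G : Type} [Group G]

/-- labels for the `X`-action -/
def lam {S : Type} : Lt S → Lt S → FreeGroup (S ⊕ Lt S)
  | Sum.inr true, Sum.inl s => FreeGroup.of (Sum.inl s)
  | Sum.inr true, Sum.inr false => FreeGroup.of (Sum.inr (Sum.inr true))
  | Sum.inr false, Sum.inr true => FreeGroup.of (Sum.inr (Sum.inr false))
  | Sum.inl s, Sum.inr true => FreeGroup.of (Sum.inr (Sum.inl s))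
  | _, _ => 1

lemma lam_self (j : Lt S) : lam j j = 1 := by
  rcases j with s | (_ | _) <;> rfl

lemma lam_pt (j : Lt S) : lam j (pt j) = FreeGroup.of (Sum.inr j) := by
  rcases j with s | (_ | _) <;> rfl

open Classical in
/-- labels for the `X`-action -/
noncomputable def lX (h : G) (j : Lt S) : Option (G × Lt S) → FreeGroup (S ⊕ Lt S)
  | none => 1
  | some (k, j') => if k = h⁻¹ then lam j j' else 1

/-- action of `G` on `Option (G × J)` -/
def aG (S : Type) {G : Type} [Group G] : G →* Equiv.Perm (Option (G × Lt S)) where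
  toFun g := Equiv.optionCongr ((Equiv.mulLeft g).prodCongr (Equiv.refl _))
  map_one' := by ext x; rcases x with _ | ⟨k, j⟩ <;> simp
  map_mul' a b := by
    ext x
    rcases x with _ | ⟨k, j⟩ <;> simp [mul_assoc]

/-- permutations acting trivially on the second factor -/
def fstP {Ω F : Type} [Group F] : Equiv.Perm Ω →* Equiv.Perm (Ω × F) where
  toFun σ := tw σ (fun _ => 1)
  map_one' := by ext ⟨a, b⟩ <;> simp [tw]
  map_mul' a b := by ext ⟨x, y⟩ <;> simp [tw]

open Classical in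
/-- the action of the letters -/
noncomputable def bX (h : G) (j : Lt S) : Equiv.Perm (Option (G × Lt S) × FreeGroup (S ⊕ Lt S)) :=
  tw (Equiv.swap none (some (1, j))) (lX h j)

/-- the `X`-action -/
noncomputable def thX (S : Type) {G : Type} [Group G] (h : G) : Monoid.Coprod G (FreeGroup (Lt S)) →*
    Equiv.Perm (Option (G × Lt S) × FreeGroup (S ⊕ Lt S)) :=
  Monoid.Coprod.lift (fstP.comp (aG S)) (FreeGroup.lift (bX h))

lemma aG_none (g : G) : aG S g none = none := rfl

lemma aG_some (g k : G) (j : Lt S) : aG S g (some (k, j)) = some (g * k, j) := rfl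

lemma fstP_apply {Ω F : Type} [Group F] (σ : Equiv.Perm Ω) (ω : Ω) (g : F) :
    (fstP σ : Equiv.Perm (Ω × F)) (ω, g) = (σ ω, g) := by
  change tw σ (fun _ => 1) (ω, g) = _
  rw [tw_apply, one_mul]

/-- the action of `G` on the first factor -/
def gX (S : Type) {G : Type} [Group G] : G →* Equiv.Perm (Option (G × Lt S) × FreeGroup (S ⊕ Lt S)) :=
  fstP.comp (aG S)

lemma gX_none (g : G) (x : FreeGroup (S ⊕ Lt S)) : gX S g (none, x) = (none, x) := by
  change fstP (aG S g) (none, x) = _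
  rw [fstP_apply, aG_none]

lemma gX_some (g k : G) (j : Lt S) (x : FreeGroup (S ⊕ Lt S)) :
    gX S g (some (k, j), x) = (some (g * k, j), x) := by
  change fstP (aG S g) (some (k, j), x) = _
  rw [fstP_apply, aG_some]

section
variable (h : G) (hh : h ≠ 1)

lemma bX_none (j : Lt S) (g : FreeGroup (S ⊕ Lt S)) : bX h j (none, g) = (some (1, j), g) := by
  classical
  unfold bX
  rw [tw_apply, Equiv.swap_apply_left]
  simp [lX]

include hh in
lemma bX_one (j j' : Lt S) (hj : j' ≠ j) (g : FreeGroup (S ⊕ Lt S)) :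
    bX h j (some (1, j'), g) = (some (1, j'), g) := by
  classical
  unfold bX
  rw [tw_apply, Equiv.swap_apply_of_ne_of_ne (by simp) (by simpa using hj)]
  simp [lX, hh]

include hh in
lemma bX_h (j j' : Lt S) (g : FreeGroup (S ⊕ Lt S)) :
    bX h j (some (h⁻¹, j'), g) = (some (h⁻¹, j'), lam j j' * g) := by
  classical
  unfold bX
  rw [tw_apply, Equiv.swap_apply_of_ne_of_ne (by simp) (by simp [hh])]
  simp [lX]

include hh in
lemma bX_one_self (j : Lt S) (g : FreeGroup (S ⊕ Lt S)) :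
    bX h j (some (1, j), g) = (none, g) := by
  classical
  unfold bX
  rw [tw_apply, Equiv.swap_apply_right]
  simp [lX, hh]

include hh in
/-- the action of `h_j` and its inverse -/
lemma hX (j : Lt S) (g : FreeGroup (S ⊕ Lt S)) :
    (((bX h j)⁻¹ * gX S h * bX h j) (some (h⁻¹, j), g) = (none, g)) ∧
    (((bX h j)⁻¹ * gX S h * bX h j)⁻¹ (none, g) = (some (h⁻¹, j), g)) := by
  have e1 : ((bX h j)⁻¹ * gX S h * bX h j) (some (h⁻¹, j), g) = (none, g) := by
    rw [Equiv.Perm.mul_apply, Equiv.Perm.mul_apply, bX_h h hh, lam_self, one_mul, gX_some, mul_inv_cancel, Equiv.Perm.inv_eq_iff_eq, bX_none]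
  refine ⟨e1, ?_⟩
  rw [Equiv.Perm.inv_eq_iff_eq, e1]

include hh in
lemma xX (j : Lt S) (g : FreeGroup (S ⊕ Lt S)) :
    xj (gX S h) (bX h) j (none, g) = (none, FreeGroup.of (Sum.inr j) * g) := by
  unfold xj
  rw [Equiv.Perm.mul_apply, (hX h hh (pt j) g).2, Equiv.Perm.mul_apply, bX_h h hh, lam_pt,
    (hX h hh (pt j) _).1]

include hh in
lemma yX (s : S) (g : FreeGroup (S ⊕ Lt S)) :
    ys (gX S h) (bX h) s (none, g) = (none, FreeGroup.of (Sum.inl s) * g) := by
  unfold ys
  rw [Equiv.Perm.mul_apply, bX_none, Equiv.Perm.mul_apply, Equiv.Perm.mul_apply, ← map_inv,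
    gX_some, mul_one, Equiv.Perm.mul_apply, bX_h h hh,
    Equiv.Perm.mul_apply, gX_some, mul_inv_cancel, Equiv.Perm.inv_eq_iff_eq,
    Equiv.Perm.inv_eq_iff_eq, bX_none, bX_one h hh _ _ (by simp)]
  rfl

end

/-- The family `X` is free in `G * F(J)`. -/
theorem X_free (h : G) (hh : h ≠ 1) (ρ : S → G) :
    Injective (FreeGroup.lift (Xf (Monoid.Coprod.inl h) (fun s => Monoid.Coprod.inl (ρ s))
      (fun j => Monoid.Coprod.inr (FreeGroup.of j))) :
      FreeGroup (S ⊕ Lt S) →* Monoid.Coprod G (FreeGroup (Lt S))) := by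
  refine inj_of_action _ (thX S h) none ?_
  intro i g
  rw [map_Xf]
  have e1 : thX S h (Monoid.Coprod.inl h) = gX S h := by
    simp [thX, gX]
  have e2 : (fun j => thX S h (Monoid.Coprod.inr (FreeGroup.of j))) = bX h := by
    funext j
    simp [thX]
  have e3 : (fun s => thX S h (Monoid.Coprod.inl (ρ s))) = fun s => gX S (ρ s) := by
    funext s
    simp [thX, gX]
  rw [e1, e2, e3]
  rcases i with s | j
  · change (gX S (ρ s) * ys (gX S h) (bX h) s) (none, g) = _
    rw [Equiv.Perm.mul_apply, yX h hh, gX_none]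
  · change (bX h j * ((bX h j)⁻¹ * xj (gX S h) (bX h) j)) (none, g) = _
    rw [mul_inv_cancel_left, xX h hh]

end X

section Y
variable {S G : Type} [Group G]

/-- labels for the `Y`-action -/
def del : Lt S → Option (Lt S) → FreeGroup (S ⊕ Lt S)
  | Sum.inr true, none => FreeGroup.of (Sum.inr (Sum.inr true))
  | Sum.inr true, some (Sum.inr false) =>
      FreeGroup.of (Sum.inr (Sum.inr false)) * FreeGroup.of (Sum.inr (Sum.inr true))
  | Sum.inr true, some (Sum.inl s) => FreeGroup.of (Sum.inl s)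
  | Sum.inl s, none => (FreeGroup.of (Sum.inl s))⁻¹ * FreeGroup.of (Sum.inr (Sum.inl s)) *
      FreeGroup.of (Sum.inr (Sum.inr true))
  | _, _ => 1

open Classical in
/-- labels for the `Y`-action -/
noncomputable def lY (h : G) (j : Lt S) (x : G × Option (Lt S)) : FreeGroup (S ⊕ Lt S) :=
  if x.1 = h⁻¹ then del j x.2 else 1

open Classical in
/-- the move of the sheets -/
noncomputable def sY : Lt S → Equiv.Perm (Option (Lt S))
  | Sum.inr true => 1
  | j => Equiv.swap none (some j)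

/-- action of `G` on `G × Option J` -/
def aY (S : Type) {G : Type} [Group G] : G →* Equiv.Perm (G × Option (Lt S)) where
  toFun g := (Equiv.mulLeft g).prodCongr (Equiv.refl _)
  map_one' := by ext ⟨x, y⟩ <;> simp
  map_mul' a b := by ext ⟨x, y⟩ <;> simp [mul_assoc]

lemma aY_apply (g k : G) (j : Option (Lt S)) : aY S g (k, j) = (g * k, j) := rfl

/-- the action of `G` on the first factor -/
def gY (S : Type) {G : Type} [Group G] :
    G →* Equiv.Perm ((G × Option (Lt S)) × FreeGroup (S ⊕ Lt S)) :=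
  fstP.comp (aY S)

lemma gY_apply (g k : G) (j : Option (Lt S)) (x : FreeGroup (S ⊕ Lt S)) :
    gY S g ((k, j), x) = ((g * k, j), x) := by
  change fstP (aY S g) ((k, j), x) = _
  rw [fstP_apply, aY_apply]

/-- the action of the letters -/
noncomputable def bY (h : G) (j : Lt S) :
    Equiv.Perm ((G × Option (Lt S)) × FreeGroup (S ⊕ Lt S)) :=
  tw ((Equiv.refl G).prodCongr (sY j)) (lY h j)

/-- the `Y`-action -/
noncomputable def thY (S : Type) {G : Type} [Group G] (h : G) : Monoid.Coprod G (FreeGroup (Lt S)) →*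
    Equiv.Perm ((G × Option (Lt S)) × FreeGroup (S ⊕ Lt S)) :=
  Monoid.Coprod.lift (gY S) (FreeGroup.lift (bY h))

section
variable (h : G) (hh : h ≠ 1)

include hh in
lemma bY_one (j : Lt S) (o : Option (Lt S)) (g : FreeGroup (S ⊕ Lt S)) :
    bY h j ((1, o), g) = ((1, sY j o), g) := by
  unfold bY
  rw [tw_apply]
  simp [lY, hh]

lemma bY_h (j : Lt S) (o : Option (Lt S)) (g : FreeGroup (S ⊕ Lt S)) :
    bY h j ((h⁻¹, o), g) = ((h⁻¹, sY j o), del j o * g) := by
  unfold bY
  rw [tw_apply]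
  simp [lY]

include hh in
lemma bY_one_inv (j : Lt S) (o : Option (Lt S)) (g : FreeGroup (S ⊕ Lt S)) :
    (bY h j)⁻¹ ((1, o), g) = ((1, (sY j)⁻¹ o), g) := by
  rw [Equiv.Perm.inv_eq_iff_eq, bY_one h hh, self_inv']

lemma bY_h_inv (j : Lt S) (o : Option (Lt S)) (g : FreeGroup (S ⊕ Lt S)) :
    (bY h j)⁻¹ ((h⁻¹, o), g) = ((h⁻¹, (sY j)⁻¹ o), (del j ((sY j)⁻¹ o))⁻¹ * g) := by
  rw [Equiv.Perm.inv_eq_iff_eq, bY_h, self_inv', mul_inv_cancel_left]

include hh in
/-- the action of `h_j` -/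
lemma hY (j : Lt S) (o : Option (Lt S)) (g : FreeGroup (S ⊕ Lt S)) :
    (((bY h j)⁻¹ * gY S h * bY h j) ((h⁻¹, o), g) = ((1, o), del j o * g)) ∧
    (((bY h j)⁻¹ * gY S h * bY h j)⁻¹ ((1, o), g) = ((h⁻¹, o), (del j o)⁻¹ * g)) := by
  have e1 : ∀ g', ((bY h j)⁻¹ * gY S h * bY h j) ((h⁻¹, o), g') =
      ((1, o), del j o * g') := by
    intro g'
    rw [Equiv.Perm.mul_apply, Equiv.Perm.mul_apply, bY_h, gY_apply, mul_inv_cancel,
      bY_one_inv h hh, inv_self']
  refine ⟨e1 g, ?_⟩
  rw [Equiv.Perm.inv_eq_iff_eq, e1, mul_inv_cancel_left]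

include hh in
lemma xY (j : Lt S) (g : FreeGroup (S ⊕ Lt S)) :
    ((bY h j)⁻¹ * xj (gY S h) (bY h) j) ((1, none), g) =
      ((1, none), del (pt j) (sY j none) * del j none * (del (pt j) none)⁻¹ * g) := by
  unfold xj
  rw [Equiv.Perm.mul_apply, Equiv.Perm.mul_apply, (hY h hh (pt j) none g).2,
    Equiv.Perm.mul_apply, bY_h, (hY h hh (pt j) _ _).1, bY_one_inv h hh,
    inv_self']
  simp only [mul_assoc]

include hh in
lemma yY (s : S) (g : FreeGroup (S ⊕ Lt S)) :
    ys (gY S h) (bY h) s ((1, none), g) = ((1, none), FreeGroup.of (Sum.inl s) * g) := by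
  have e : sY (Sum.inr true : Lt S) = 1 := rfl
  unfold ys
  rw [Equiv.Perm.mul_apply, bY_one h hh, Equiv.Perm.mul_apply, Equiv.Perm.mul_apply, ← map_inv,
    gY_apply, mul_one, (hY h hh _ _ _).1, bY_one_inv h hh,
    inv_self']
  have : sY (Sum.inl s : Lt S) none = some (Sum.inl s) := by
    simp [sY]
  rw [this]
  rfl

end

/-- The family `Y` is free in `G * F(J)`. -/
theorem Y_free (h : G) (hh : h ≠ 1) :
    Injective (FreeGroup.lift (Yf (Monoid.Coprod.inl h)
      (fun j => Monoid.Coprod.inr (FreeGroup.of j))) :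
      FreeGroup (S ⊕ Lt S) →* Monoid.Coprod G (FreeGroup (Lt S))) := by
  refine inj_of_action _ (thY S h) (1, none) ?_
  intro i g
  rw [map_Yf]
  have e1 : thY S h (Monoid.Coprod.inl h) = gY S h := by
    simp [thY]
  have e2 : (fun j => thY S h (Monoid.Coprod.inr (FreeGroup.of j))) = bY h := by
    funext j
    simp [thY]
  rw [e1, e2]
  rcases i with s | j
  · exact yY h hh s g
  · change ((bY h j)⁻¹ * xj (gY S h) (bY h) j) ((1, none), g) = _
    rw [xY h hh]
    rcases j with s | (_ | _)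
    · have : sY (Sum.inl s : Lt S) none = some (Sum.inl s) := by simp [sY]
      rw [this]
      simp [del, pt, mul_assoc]
    · have : sY (Sum.inr false : Lt S) none = some (Sum.inr false) := by simp [sY]
      rw [this]
      simp [del, pt, mul_assoc]
    · simp [del, pt, sY]

end Y

end Pool.Agent.R655.LI
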