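import Pool.Agent.R655.LI.Defs
import Pool.Agent.R655.LI.Free

set_option autoImplicit false

/-!
The construction of the complex `L'`.
-/

namespace Pool.Agent.R655.LI

open Function

section
variable {K L : Cx} (i : Sub K L)

/-- the 2-cells of `L` outside `K` -/
abbrev Out : Type := {j : L.R // j ∉ Set.range i.c}

/-- the inclusion of words -/
abbrev wi (V A : Type) : FreeGroup V →* FreeGroup (V ⊕ A) := FreeGroup.map Sum.inl

/-- the letters -/
def bb (j : Lt (Out i)) : FreeGroup (L.V ⊕ (Lt (Out i) ⊕ Unit)) := FreeGroup.of (Sum.inr (Sum.inl j))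

/-- the stable letter -/
def tt : FreeGroup (L.V ⊕ (Lt (Out i) ⊕ Unit)) := FreeGroup.of (Sum.inr (Sum.inr ()))

/-- the words `r_s` -/
def rr (s : Out i) : FreeGroup (L.V ⊕ (Lt (Out i) ⊕ Unit)) := wi L.V _ (L.r s)

variable (w : FreeGroup K.V)

/-- the word `w` -/
def ww : FreeGroup (L.V ⊕ (Lt (Out i) ⊕ Unit)) := wi L.V _ (FreeGroup.map i.v w)

/-- the relators `t x t⁻¹ y⁻¹` -/
def rel (k : Out i ⊕ Lt (Out i)) : FreeGroup (L.V ⊕ (Lt (Out i) ⊕ Unit)) :=
  tt i * Xf (ww i w) (rr i) (bb i) k * (tt i)⁻¹ * (Yf (ww i w) (bb i) k)⁻¹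

open Classical in
/-- the complex `L'` -/
noncomputable def big : Cx where
  V := L.V ⊕ (Lt (Out i) ⊕ Unit)
  R := L.R ⊕ (Lt (Out i) ⊕ Unit)
  r k := match k with
    | Sum.inl j => if hj : j ∈ Set.range i.c then wi L.V _ (L.r j) else rel i w (Sum.inl ⟨j, hj⟩)
    | Sum.inr (Sum.inl j) => rel i w (Sum.inr j)
    | Sum.inr (Sum.inr _) => tt i

lemma big_fin (h : L.IsFin) : (big i w).IsFin := by
  have := h.1
  have := h.2
  constructor
  · change Finite (L.V ⊕ (Lt (Out i) ⊕ Unit))
    infer_instance
  · change Finite (L.R ⊕ (Lt (Out i) ⊕ Unit))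
    infer_instance

lemma big_r_in (j : K.R) : (big i w).r (Sum.inl (i.c j)) = wi L.V _ (L.r (i.c j)) := by
  simp only [big]
  rw [dif_pos ⟨j, rfl⟩]

lemma big_r_out (s : Out i) : (big i w).r (Sum.inl s.1) = rel i w (Sum.inl s) := by
  simp only [big]
  rw [dif_neg s.2]

lemma big_r_lt (j : Lt (Out i)) : (big i w).r (Sum.inr (Sum.inl j)) = rel i w (Sum.inr j) := rfl

lemma big_r_t (u : Unit) : (big i w).r (Sum.inr (Sum.inr u)) = tt i := rfl

/-- Killing: if `f` kills the relators of `K` and identifies `x` and `y`, then it kills the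
generators of `L` and the letters. -/
lemma kill {Q : Type} [Group Q] (hL : L.Contractible) (f : FreeGroup (L.V ⊕ (Lt (Out i) ⊕ Unit)) →* Q)
    (h1 : ∀ j : K.R, f (wi L.V _ (L.r (i.c j))) = 1)
    (h2 : ∀ k, f (Xf (ww i w) (rr i) (bb i) k) = f (Yf (ww i w) (bb i) k)) :
    (∀ x : FreeGroup L.V, f (wi L.V _ x) = 1) ∧ ∀ j, f (bb i j) = 1 := by
  have h3 : ∀ k, f (Zf (rr i) (bb i) k) = 1 := by
    intro k
    have := h2 k
    rwa [Xf, map_mul, mul_eq_right] at this
  refine ⟨?_, fun j => h3 (Sum.inr j)⟩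
  have h4 : ∀ j : L.R, f (wi L.V _ (L.r j)) = 1 := by
    intro j
    by_cases hj : j ∈ Set.range i.c
    · obtain ⟨j', rfl⟩ := hj
      exact h1 j'
    · exact h3 (Sum.inl ⟨j, hj⟩)
  have h5 : ∀ x ∈ Set.range L.r, FreeGroup.lift (fun v => f (wi L.V _ (FreeGroup.of v))) x = 1 := by
    rintro x ⟨j, rfl⟩
    have : FreeGroup.lift (fun v => f (wi L.V (Lt (Out i) ⊕ Unit) (FreeGroup.of v))) =
        f.comp (wi L.V _) := by
      ext v
      simp
    rw [this]
    exact h4 j
  intro x
  have h6 := congrArg (PresentedGroup.toGroup h5) (hL.pi_eq_one (PresentedGroup.mk _ x))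
  rw [map_one] at h6
  have : (PresentedGroup.toGroup h5).comp (PresentedGroup.mk _) = f.comp (wi L.V _) := by
    ext v
    exact PresentedGroup.toGroup.of h5
  rw [← MonoidHom.comp_apply, this] at h6
  exact h6

/-- projection of the boundary to the 1-cells of `L` -/
lemma expSum_wi {V A : Type} (x : FreeGroup V) :
    (expSum (V ⊕ A) (wi V A x)).toAdd = Finsupp.mapDomain Sum.inl (expSum V x).toAdd := by
  have : (expSum (V ⊕ A)).comp (wi V A) =
      (AddMonoidHom.toMultiplicative (Finsupp.mapDomain.addMonoidHom Sum.inl)).comp (expSum V) := by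
    ext v
    simp [expSum]
  have h := congrArg Multiplicative.toAdd (DFunLike.congr_fun this x)
  exact h

lemma expSum_rel (k : Out i ⊕ Lt (Out i)) :
    expSum _ (rel i w k) = expSum _ (Zf (rr i) (bb i) k) := by
  rw [rel, Xf, map_mul, map_mul, map_mul, map_mul, map_inv, map_inv]
  generalize expSum _ (tt i) = a
  generalize expSum _ (Zf (rr i) (bb i) k) = b
  generalize expSum _ (Yf (ww i w) (bb i) k) = c
  rw [mul_comm a, mul_assoc (b * c), mul_inv_cancel, mul_one, mul_inv_cancel_right]

lemma cls_in (j : L.R) : (expSum (big i w).V ((big i w).r (Sum.inl j))).toAdd =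
    Finsupp.mapDomain Sum.inl (expSum L.V (L.r j)).toAdd := by
  by_cases hj : j ∈ Set.range i.c
  · obtain ⟨j', rfl⟩ := hj
    rw [big_r_in]
    exact expSum_wi _
  · rw [big_r_out i w ⟨j, hj⟩]
    refine Eq.trans (congrArg Multiplicative.toAdd (expSum_rel i w (Sum.inl ⟨j, hj⟩))) ?_
    exact expSum_wi _

lemma expSum_of {V : Type} (v : V) : (expSum V (FreeGroup.of v)).toAdd = Finsupp.single v 1 := by
  simp [expSum]

lemma cls_inr (k : Lt (Out i) ⊕ Unit) : (expSum (big i w).V ((big i w).r (Sum.inr k))).toAdd =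
    Finsupp.single (Sum.inr k) 1 := by
  rcases k with j | ⟨⟩
  · rw [big_r_lt]
    refine Eq.trans (congrArg Multiplicative.toAdd (expSum_rel i w (Sum.inr j))) ?_
    exact expSum_of _
  · rw [big_r_t]
    exact expSum_of _

end

lemma inj_block {V R A : Type} (c : R → (V →₀ ℤ))
    (hc : Injective (Finsupp.linearCombination ℤ c)) (d : R ⊕ A → ((V ⊕ A) →₀ ℤ))
    (h1 : ∀ j, d (Sum.inl j) = Finsupp.mapDomain Sum.inl (c j))
    (h2 : ∀ k, d (Sum.inr k) = Finsupp.single (Sum.inr k) 1) :
    Injective (Finsupp.linearCombination ℤ d) := by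
  have e1 : (Finsupp.lcomapDomain (M := ℤ) (R := ℤ) Sum.inl Sum.inl_injective).comp
      (Finsupp.linearCombination ℤ d) = (Finsupp.linearCombination ℤ c).comp
      (Finsupp.lcomapDomain (M := ℤ) (R := ℤ) (Sum.inl : R → R ⊕ A) Sum.inl_injective) := by
    refine Finsupp.lhom_ext fun k z => ?_
    rcases k with j | k
    · have : Finsupp.comapDomain (Sum.inl : R → R ⊕ A) (Finsupp.single (Sum.inl j) z)
          Sum.inl_injective.injOn = Finsupp.single j z :=
        Finsupp.comapDomain_single _ _ _ _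
      simp only [LinearMap.comp_apply, Finsupp.linearCombination_single, h1, map_smul,
        Finsupp.lcomapDomain_apply]
      rw [this, Finsupp.linearCombination_single, Finsupp.comapDomain_mapDomain _ Sum.inl_injective]
    · have : Finsupp.comapDomain (Sum.inl : R → R ⊕ A) (Finsupp.single (Sum.inr k) z)
          Sum.inl_injective.injOn = 0 := by
        ext x; simp
      have h' : Finsupp.comapDomain (Sum.inl : V → V ⊕ A) (Finsupp.single (Sum.inr k) (1 : ℤ))
          Sum.inl_injective.injOn = 0 := by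
        ext x; simp
      simp only [LinearMap.comp_apply, Finsupp.linearCombination_single, h2, map_smul,
        Finsupp.lcomapDomain_apply]
      rw [this, h', smul_zero, map_zero]
  have e2 : (Finsupp.lcomapDomain (M := ℤ) (R := ℤ) Sum.inr Sum.inr_injective).comp
      (Finsupp.linearCombination ℤ d) =
      (Finsupp.lcomapDomain (M := ℤ) (R := ℤ) (Sum.inr : A → R ⊕ A) Sum.inr_injective) := by
    refine Finsupp.lhom_ext fun k z => ?_
    rcases k with j | k
    · have : Finsupp.comapDomain (Sum.inr : A → R ⊕ A) (Finsupp.single (Sum.inl j) z)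
          Sum.inr_injective.injOn = 0 := by
        ext x; simp
      have h' : Finsupp.comapDomain (Sum.inr : A → V ⊕ A) (Finsupp.mapDomain Sum.inl (c j))
          Sum.inr_injective.injOn = 0 := by
        ext x
        rw [Finsupp.comapDomain_apply, Finsupp.mapDomain_of_notMem_range _ _ (by simp)]
        rfl
      simp only [LinearMap.comp_apply, Finsupp.linearCombination_single, h1, map_smul,
        Finsupp.lcomapDomain_apply]
      rw [this, h', smul_zero]
    · have : Finsupp.comapDomain (Sum.inr : A → R ⊕ A) (Finsupp.single (Sum.inr k) z)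
          Sum.inr_injective.injOn = Finsupp.single k z :=
        Finsupp.comapDomain_single _ _ _ _
      have h' : Finsupp.comapDomain (Sum.inr : A → V ⊕ A) (Finsupp.single (Sum.inr k) (1 : ℤ))
          Sum.inr_injective.injOn = Finsupp.single k 1 :=
        Finsupp.comapDomain_single _ _ _ _
      simp only [LinearMap.comp_apply, Finsupp.linearCombination_single, h2, map_smul,
        Finsupp.lcomapDomain_apply]
      rw [this, h', Finsupp.smul_single, smul_eq_mul, mul_one]
  rw [injective_iff_map_eq_zero] at hc ⊢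
  intro x hx
  have f1 := congrArg (fun l => l x) e1
  have f2 := congrArg (fun l => l x) e2
  simp only [LinearMap.comp_apply, hx, map_zero] at f1 f2
  have f3 := hc _ f1.symm
  ext k
  rcases k with j | k
  · exact DFunLike.congr_fun f3 j
  · exact (DFunLike.congr_fun f2 k).symm

section
variable {K L : Cx} (i : Sub K L) (w : FreeGroup K.V)

lemma big_bdry_inj (hL : Injective L.bdry) : Injective (big i w).bdry :=
  inj_block _ hL _ (cls_in i w) (cls_inr i w)

end

end Pool.Agent.R655.LI
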