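import Mathlib

set_option autoImplicit false

/-!
One-vertex 2-complexes (presentations), subcomplexes, contractibility, locally indicable groups.
-/

namespace Pool.Agent.R655.LI

open Function

/-- A 2-complex with one vertex: the 1-cells `V`, the 2-cells `R`, the attaching words `r`. -/
structure Cx where
  V : Type
  R : Type
  r : R → FreeGroup V

/-- The fundamental group. -/
abbrev Cx.Pi (L : Cx) : Type := PresentedGroup (Set.range L.r)

/-- Exponent sums: the class of a word in the group of cellular 1-chains. -/
noncomputable def expSum (V : Type) : FreeGroup V →* Multiplicative (V →₀ ℤ) :=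
  FreeGroup.lift fun v => Multiplicative.ofAdd (Finsupp.single v 1)

/-- The cellular boundary operator from the 2-chains to the 1-chains. -/
noncomputable def Cx.bdry (L : Cx) : (L.R →₀ ℤ) →ₗ[ℤ] (L.V →₀ ℤ) :=
  Finsupp.linearCombination ℤ fun j => (expSum L.V (L.r j)).toAdd

/-- `L` is contractible: `π₁ = 1` and `H₂ = 0`. -/
structure Cx.Contractible (L : Cx) : Prop where
  pi_eq_one : ∀ x : L.Pi, x = 1
  bdry_inj : Injective L.bdry

/-- `L` has finitely many cells. -/
def Cx.IsFin (L : Cx) : Prop := Finite L.V ∧ Finite L.R

/-- `K` is (identified with) a subcomplex of `L`. -/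
structure Sub (K L : Cx) where
  v : K.V ↪ L.V
  c : K.R ↪ L.R
  comm : ∀ j, FreeGroup.map v (K.r j) = L.r (c j)

/-- The homomorphism of fundamental groups induced by the inclusion of a subcomplex. -/
def Sub.map {K L : Cx} (i : Sub K L) : K.Pi →* L.Pi :=
  PresentedGroup.toGroup (f := fun v => PresentedGroup.of (i.v v)) (by
    rintro _ ⟨j, rfl⟩
    have : FreeGroup.lift (fun v => (PresentedGroup.of (i.v v) : L.Pi)) =
        (PresentedGroup.mk (Set.range L.r)).comp (FreeGroup.map i.v) := by
      ext v
      simp [PresentedGroup.of]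
    rw [this, MonoidHom.comp_apply, i.comm]
    exact PresentedGroup.one_of_mem ⟨i.c j, rfl⟩)

/-- Remove the open 2-cell `e`. -/
def Cx.del (L : Cx) (e : L.R) : Cx where
  V := L.V
  R := {k : L.R // k ≠ e}
  r k := L.r k

/-- Locally indicable groups. -/
def LocInd (G : Type) [Group G] : Prop :=
  ∀ H : Subgroup G, H.FG → H ≠ ⊥ → ∃ f : H →* Multiplicative ℤ, Surjective f

/-- Q1 for the one-vertex contractible complexes with the property `P`: the fundamental groups of
all subcomplexes are locally indicable. -/
def Question (P : Cx → Prop) : Prop :=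
  ∀ (K L : Cx) (_ : Sub K L), L.Contractible → P L → LocInd K.Pi

/-- `L` is contractible and its 2-cell `e` is attached along a 1-cell. -/
def OneCell (L : Cx) (e : L.R) : Prop :=
  L.Contractible ∧ ∃ t : L.V, L.r e = FreeGroup.of t

/-- The commutator subgroup of `π₁(L - e)`. -/
def NN (L : Cx) (e : L.R) : Subgroup (L.del e).Pi := commutator (L.del e).Pi

/-- The subgroup `N` is perfect. -/
def Perf {G : Type} [Group G] (N : Subgroup G) : Prop := ⁅N, N⁆ = N

/-- `N` is the normal closure of `h`. -/
def NGen {G : Type} [Group G] (N : Subgroup G) (h : G) : Prop := Subgroup.normalClosure {h} = N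

/-- `N` has a nontrivial homomorphism to a locally indicable group. -/
def HasHom {G : Type} [Group G] (N : Subgroup G) : Prop :=
  ∃ (A : Type) (_ : Group A) (f : N →* A), LocInd A ∧ f ≠ 1

/-- The reduced question: only one 2-cell `e`, attached along a 1-cell, is removed; the
commutator subgroup `N` of `π₁(L - e)` is perfect, nontrivial and the normal closure of one element;
and it is only asked whether `N` has a nontrivial homomorphism to a locally indicable group. -/
def Reduced (P : Cx → Prop) : Prop :=
  ∀ (L : Cx) (e : L.R), OneCell L e → P L → Perf (NN L e) → (∃ h, NGen (NN L e) h) →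
    NN L e ≠ ⊥ → HasHom (NN L e)

/-- `K` is a subcomplex of `L' - e` (via `s`) and `π₁(K)` embeds in the commutator subgroup of
`π₁(L' - e)`. -/
def Embeds (K L' : Cx) (e : L'.R) (s : Sub K (L'.del e)) : Prop :=
  Injective s.map ∧ ∀ k, s.map k ∈ NN L' e

/-- The embedding property of the theorem. -/
def Thm (K L : Cx) (F : Set K.Pi) : Prop :=
  ∃ (L' : Cx) (e : L'.R) (s : Sub K (L'.del e)), OneCell L' e ∧ (L.IsFin → L'.IsFin) ∧
    Embeds K L' e s ∧ Perf (NN L' e) ∧ ∀ h ∈ F, NGen (NN L' e) (s.map h)

end Pool.Agent.R655.LI
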