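import Pool.Agent.R655.LI.Grp

set_option autoImplicit false

/-!
The embedding of `π₁(K)` into `π₁(L' - e)`.
-/

namespace Pool.Agent.R655.LI

open Function

section
variable {K L : Cx} (i : Sub K L) (w : FreeGroup K.V)

/-- `π₁` of `K` together with the 1-cells of `L` -/
abbrev G1 : Type := PresentedGroup (Set.range fun j : K.R => L.r (i.c j))

/-- the map `π₁(K) → G₁` -/
def kg : K.Pi →* G1 i :=
  PresentedGroup.toGroup (f := fun v => PresentedGroup.of (i.v v)) (by
    rintro _ ⟨j, rfl⟩
    have : FreeGroup.lift (fun v => (PresentedGroup.of (i.v v) : G1 i)) =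
        (PresentedGroup.mk (Set.range fun j : K.R => L.r (i.c j))).comp (FreeGroup.map i.v) := by
      ext v
      simp [PresentedGroup.of]
    rw [this, MonoidHom.comp_apply, i.comm]
    exact PresentedGroup.one_of_mem ⟨j, rfl⟩)

lemma kg_of (v : K.V) : kg i (PresentedGroup.of v) = PresentedGroup.of (i.v v) :=
  PresentedGroup.toGroup.of _

open Classical in
/-- the retraction `G₁ → π₁(K)` -/
noncomputable def gk : G1 i →* K.Pi :=
  PresentedGroup.toGroup
    (f := fun v => if h : ∃ u, i.v u = v then PresentedGroup.of h.choose else 1) (by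
    rintro _ ⟨j, rfl⟩
    have : (FreeGroup.lift (fun v => if h : ∃ u, i.v u = v then
        (PresentedGroup.of h.choose : K.Pi) else 1)).comp (FreeGroup.map i.v) =
        PresentedGroup.mk (Set.range K.r) := by
      ext v
      have h : ∃ u, i.v u = i.v v := ⟨v, rfl⟩
      simp only [MonoidHom.comp_apply, FreeGroup.map.of, FreeGroup.lift_apply_of]
      rw [dif_pos h, i.v.injective h.choose_spec]
      rfl
    change FreeGroup.lift _ (L.r (i.c j)) = 1
    rw [← i.comm, ← MonoidHom.comp_apply, this]
    exact PresentedGroup.one_of_mem ⟨j, rfl⟩)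

lemma gk_of (v : K.V) : gk i (PresentedGroup.of (i.v v)) = PresentedGroup.of v := by
  classical
  have h : ∃ u, i.v u = i.v v := ⟨v, rfl⟩
  refine Eq.trans (PresentedGroup.toGroup.of _) ?_
  rw [dif_pos h, i.v.injective h.choose_spec]

lemma kg_inj : Injective (kg i) := by
  have : (gk i).comp (kg i) = MonoidHom.id _ := by
    refine PresentedGroup.ext fun v => ?_
    rw [MonoidHom.comp_apply, kg_of, gk_of]
    rfl
  intro x y h
  have := congrArg (gk i) h
  rwa [← MonoidHom.comp_apply, ← MonoidHom.comp_apply, ‹(gk i).comp (kg i) = _›] at this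

/-- the map `π₁(K) → π₁(L' - e)` -/
def phi : K.Pi →* GG i w :=
  PresentedGroup.toGroup (f := fun v => mk' i w (wi L.V _ (FreeGroup.of (i.v v)))) (by
    rintro _ ⟨j, rfl⟩
    have : FreeGroup.lift (fun v => mk' i w (wi L.V _ (FreeGroup.of (i.v v)))) =
        ((mk' i w).comp (wi L.V _)).comp (FreeGroup.map i.v) := by
      ext v
      simp
    rw [this, MonoidHom.comp_apply, i.comm]
    exact mk'_in i w j)

lemma phi_of (v : K.V) :
    phi i w (PresentedGroup.of v) = mk' i w (wi L.V _ (FreeGroup.of (i.v v))) :=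
  PresentedGroup.toGroup.of _

lemma phi_mk (x : FreeGroup K.V) :
    phi i w (PresentedGroup.mk _ x) = mk' i w (wi L.V _ (FreeGroup.map i.v x)) := by
  have : (phi i w).comp (PresentedGroup.mk _) =
        ((mk' i w).comp (wi L.V _)).comp (FreeGroup.map i.v) := by
    ext v
    refine Eq.trans (phi_of i w v) ?_
    simp
  exact DFunLike.congr_fun this x

/-- the base group -/
abbrev BB : Type := Monoid.Coprod (G1 i) (FreeGroup (Lt (Out i)))

/-- the element `h` in the base group -/
def hB : G1 i := kg i (PresentedGroup.mk _ w)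

/-- the elements `r_s` in the base group -/
def rB (s : Out i) : G1 i := PresentedGroup.mk _ (L.r s)

/-- the family `X` -/
def XB (k : Out i ⊕ Lt (Out i)) : BB i :=
  Xf (Monoid.Coprod.inl (hB i w)) (fun s => Monoid.Coprod.inl (rB i s))
      (fun j => Monoid.Coprod.inr (FreeGroup.of j)) k

/-- the family `Y` -/
def YB (k : Out i ⊕ Lt (Out i)) : BB i :=
  Yf (Monoid.Coprod.inl (hB i w)) (fun j => Monoid.Coprod.inr (FreeGroup.of j)) k

lemma HNN_exists {B I : Type} [Group B] (x y : I → B)
    (hx : Injective (FreeGroup.lift x : FreeGroup I →* B))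
    (hy : Injective (FreeGroup.lift y : FreeGroup I →* B)) :
    ∃ (W : Type) (_ : Group W) (f : B →* W) (t : W), Injective f ∧ ∀ k, t * f (x k) * t⁻¹ = f (y k) := by
  let X : Subgroup B := (FreeGroup.lift x).range
  let Y : Subgroup B := (FreeGroup.lift y).range
  let φ : X ≃* Y := (MonoidHom.ofInjective hx).symm.trans (MonoidHom.ofInjective hy)
  refine ⟨HNNExtension B X Y φ, inferInstance, HNNExtension.of, HNNExtension.t,
    HNNExtension.of_injective φ, fun k => ?_⟩
  have hxk : x k ∈ X := ⟨FreeGroup.of k, by simp⟩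
  have h1 : φ ⟨x k, hxk⟩ = MonoidHom.ofInjective hy (FreeGroup.of k) := by
    change MonoidHom.ofInjective hy ((MonoidHom.ofInjective hx).symm ⟨x k, hxk⟩) = _
    congr 1
    rw [MulEquiv.symm_apply_eq]
    ext
    simp [MonoidHom.ofInjective_apply]
  have h2 := HNNExtension.equiv_eq_conj (φ := φ) ⟨x k, hxk⟩
  rw [h1] at h2
  rw [← h2]
  simp [MonoidHom.ofInjective_apply]

lemma phi_inj (hw : (PresentedGroup.mk (Set.range K.r) w : K.Pi) ≠ 1) : Injective (phi i w) := by
  have hh : hB i w ≠ 1 := by
    intro h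
    exact hw (kg_inj i (h.trans (map_one _).symm))
  obtain ⟨W, _, f, t, hf, ht⟩ := HNN_exists (XB i w) (YB i w) (X_free (hB i w) hh (rB i))
    (Y_free (hB i w) hh)
  let g : FreeGroup (L.V ⊕ (Lt (Out i) ⊕ Unit)) →* W := FreeGroup.lift fun x => match x with
      | Sum.inl v => f (Monoid.Coprod.inl (PresentedGroup.of v))
      | Sum.inr (Sum.inl j) => f (Monoid.Coprod.inr (FreeGroup.of j))
      | Sum.inr (Sum.inr _) => t
  have g1 : ∀ x : FreeGroup L.V, g (wi L.V _ x) = f (Monoid.Coprod.inl (PresentedGroup.mk _ x)) := by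
    have : g.comp (wi L.V _) = (f.comp Monoid.Coprod.inl).comp
        (PresentedGroup.mk (Set.range fun j : K.R => L.r (i.c j))) := by
      ext v
      simp [g, PresentedGroup.of]
    exact fun x => DFunLike.congr_fun this x
  have g2 : (fun j => g (bb i j)) = fun j => f (Monoid.Coprod.inr (FreeGroup.of j)) := by
    funext j
    simp [g, bb]
  have g3 : g (tt i) = t := by simp [g, tt]
  have g4 : g (ww i w) = f (Monoid.Coprod.inl (hB i w)) := by
    rw [ww, g1]
    congr 2
    have : (PresentedGroup.mk (Set.range fun j : K.R => L.r (i.c j))).comp (FreeGroup.map i.v) =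
        (kg i).comp (PresentedGroup.mk _) := by
      ext v
      exact (kg_of i v).symm
    exact DFunLike.congr_fun this w
  have g5 : (fun s => g (rr i s)) = fun s => f (Monoid.Coprod.inl (rB i s)) := by
    funext s
    exact g1 _
  have gX : ∀ k, g (Xf (ww i w) (rr i) (bb i) k) = f (XB i w k) := by
    intro k
    rw [map_Xf, g2, g4, g5, XB, map_Xf]
  have gY : ∀ k, g (Yf (ww i w) (bb i) k) = f (YB i w k) := by
    intro k
    rw [map_Yf, g2, g4, YB, map_Yf]
  have grel : ∀ k, g (rel i w k) = 1 := by
    intro k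
    rw [rel, map_mul, map_mul, map_mul, map_inv, map_inv, gX, gY, g3, ht, mul_inv_cancel]
  have gr : ∀ x ∈ Set.range ((big i w).del (ee i w)).r, g x = 1 := by
    rintro _ ⟨⟨k, hk⟩, rfl⟩
    change g ((big i w).r k) = 1
    rcases k with j | j | ⟨⟩
    · by_cases hj : j ∈ Set.range i.c
      · obtain ⟨j', rfl⟩ := hj
        rw [big_r_in, g1]
        have : (PresentedGroup.mk (Set.range fun j : K.R => L.r (i.c j)) (L.r (i.c j')) : G1 i) = 1 :=
          PresentedGroup.one_of_mem ⟨j', rfl⟩
        rw [this, map_one, map_one]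
      · rw [big_r_out i w ⟨j, hj⟩]
        exact grel _
    · exact grel _
    · exact absurd rfl hk
  let Θ : GG i w →* W := QuotientGroup.lift _ g (fun x hx => by
    have : Subgroup.normalClosure (Set.range ((big i w).del (ee i w)).r) ≤ g.ker :=
      @Subgroup.normalClosure_le_normal _ _ _ _ (MonoidHom.normal_ker g) fun x hx => gr x hx
    exact this hx)
  have hΘ : ∀ x : K.Pi, Θ (phi i w x) = f (Monoid.Coprod.inl (kg i x)) := by
    have : Θ.comp (phi i w) = (f.comp Monoid.Coprod.inl).comp (kg i) := by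
      refine PresentedGroup.ext fun v => ?_
      rw [MonoidHom.comp_apply, MonoidHom.comp_apply, MonoidHom.comp_apply, kg_of]
      rw [phi_of]
      exact g1 (FreeGroup.of (i.v v))
    exact fun x => DFunLike.congr_fun this x
  intro x y hxy
  have := congrArg Θ hxy
  rw [hΘ, hΘ] at this
  exact kg_inj i (Monoid.Coprod.inl_injective (hf this))

end

end Pool.Agent.R655.LI
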