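import Pool.Agent.R655.LI.Constr

set_option autoImplicit false

/-!
The fundamental group of `L' - e`.
-/

namespace Pool.Agent.R655.LI

open Function
open scoped commutatorElement

lemma comp_comm {A C Q : Type} [Group A] [CommGroup C] [Group Q] (z : C →* Q) (g : A →* C) (a b : A) :
    (z.comp g) a * (z.comp g) b = (z.comp g) b * (z.comp g) a := by
  rw [← map_mul, ← map_mul, MonoidHom.comp_apply, MonoidHom.comp_apply, map_mul g, mul_comm,
    ← map_mul g]

section
variable {K L : Cx} (i : Sub K L) (w : FreeGroup K.V)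

/-- the 2-cell `e` -/
abbrev ee : (big i w).R := Sum.inr (Sum.inr ())

/-- the group of `L' - e` -/
abbrev GG : Type := ((big i w).del (ee i w)).Pi

/-- the words in `L'` as elements of the group -/
def mk' : FreeGroup (L.V ⊕ (Lt (Out i) ⊕ Unit)) →* GG i w := PresentedGroup.mk _

lemma mk'_surj : Surjective (mk' i w) := QuotientGroup.mk_surjective

lemma mk'_in (j : K.R) : mk' i w (wi L.V _ (L.r (i.c j))) = 1 := by
  refine PresentedGroup.one_of_mem ⟨⟨Sum.inl (i.c j), Sum.inl_ne_inr⟩, ?_⟩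
  exact big_r_in i w j

lemma mk'_rel (k : Out i ⊕ Lt (Out i)) : mk' i w (rel i w k) = 1 := by
  rcases k with s | j
  · refine PresentedGroup.one_of_mem ⟨⟨Sum.inl s.1, Sum.inl_ne_inr⟩, ?_⟩
    exact big_r_out i w s
  · refine PresentedGroup.one_of_mem ⟨⟨Sum.inr (Sum.inl j), ?_⟩, ?_⟩
    · intro h
      exact Sum.inl_ne_inr (Sum.inr_injective h)
    · exact big_r_lt i w j

lemma mk'_conj (k : Out i ⊕ Lt (Out i)) :
    mk' i w (tt i) * mk' i w (Xf (ww i w) (rr i) (bb i) k) * (mk' i w (tt i))⁻¹ =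
      mk' i w (Yf (ww i w) (bb i) k) := by
  have := mk'_rel i w k
  rw [rel, map_mul, map_mul, map_mul, map_inv, map_inv] at this
  exact mul_inv_eq_one.1 this

/-- the contractibility of `L'` -/
lemma big_contractible (hL : L.Contractible) : (big i w).Contractible := by
  refine ⟨?_, big_bdry_inj i w hL.bdry_inj⟩
  let f : FreeGroup (L.V ⊕ (Lt (Out i) ⊕ Unit)) →* (big i w).Pi := PresentedGroup.mk _
  have hf : ∀ k, f ((big i w).r k) = 1 := fun k => PresentedGroup.one_of_mem ⟨k, rfl⟩
  have ht : f (tt i) = 1 := hf (Sum.inr (Sum.inr ()))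
  have hrel : ∀ k, f (rel i w k) = 1 := by
    intro k
    rcases k with s | j
    · rw [← big_r_out i w s]; exact hf _
    · exact hf (Sum.inr (Sum.inl j))
  have hk := kill i w hL f (fun j => by rw [← big_r_in i w j]; exact hf _) (fun k => by
    have := hrel k
    rw [rel, map_mul, map_mul, map_mul, map_inv, map_inv, ht, one_mul, inv_one, mul_one] at this
    exact mul_inv_eq_one.1 this)
  have h1 : f = 1 := by
    ext x
    rcases x with v | j | ⟨⟩
    · exact hk.1 (FreeGroup.of v)
    · exact hk.2 j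
    · exact ht
  intro x
  obtain ⟨y, rfl⟩ := QuotientGroup.mk_surjective x
  exact DFunLike.congr_fun h1 y

/-- The quotient criterion. -/
lemma crit (hL : L.Contractible) (M : Subgroup (GG i w)) [M.Normal]
    (h : ∀ k, mk' i w (Xf (ww i w) (rr i) (bb i) k) * (mk' i w (Yf (ww i w) (bb i) k))⁻¹ ∈ M) :
    commutator (GG i w) ≤ M ∧ (∀ x : FreeGroup L.V, mk' i w (wi L.V _ x) ∈ M) ∧
      ∀ j, mk' i w (bb i j) ∈ M := by
  let f : FreeGroup (L.V ⊕ (Lt (Out i) ⊕ Unit)) →* GG i w ⧸ M := (QuotientGroup.mk' M).comp (mk' i w)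
  have hk := kill i w hL f (fun j => by
      rw [MonoidHom.comp_apply, mk'_in, map_one]) (fun k => by
      rw [MonoidHom.comp_apply, MonoidHom.comp_apply, ← mul_inv_eq_one, ← map_inv, ← map_mul]
      exact (QuotientGroup.eq_one_iff _).2 (h k))
  refine ⟨?_, fun x => (QuotientGroup.eq_one_iff _).1 (hk.1 x),
    fun j => (QuotientGroup.eq_one_iff _).1 (hk.2 j)⟩
  have h1 : f = (zpowersHom (GG i w ⧸ M) (f (tt i))).comp (FreeGroup.lift fun x =>
      match x with
      | Sum.inl _ => 1
      | Sum.inr (Sum.inl _) => 1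
      | Sum.inr (Sum.inr _) => Multiplicative.ofAdd 1) := by
    ext x
    rcases x with v | j | ⟨⟩
    · refine Eq.trans (hk.1 (FreeGroup.of v)) ?_
      simp
    · refine Eq.trans (hk.2 j) ?_
      simp
    · simp only [MonoidHom.comp_apply, FreeGroup.lift_apply_of, zpowersHom_apply, toAdd_ofAdd, zpow_one]
      rfl
  rw [commutator_def, Subgroup.commutator_le]
  intro a _ b _
  obtain ⟨a, rfl⟩ := mk'_surj i w a
  obtain ⟨b, rfl⟩ := mk'_surj i w b
  rw [← QuotientGroup.eq_one_iff]
  change QuotientGroup.mk' M ⁅mk' i w a, mk' i w b⁆ = 1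
  rw [map_commutatorElement, commutatorElement_eq_one_iff_mul_comm]
  change f a * f b = f b * f a
  rw [h1]
  exact comp_comm _ _ a b

/-- the image of the word `w` -/
def hh : GG i w := mk' i w (ww i w)

lemma Y_mem (M : Subgroup (GG i w)) [M.Normal] (h : hh i w ∈ M) (k : Out i ⊕ Lt (Out i)) :
    mk' i w (Yf (ww i w) (bb i) k) ∈ M := by
  rw [← QuotientGroup.eq_one_iff]
  change ((QuotientGroup.mk' M).comp (mk' i w)) _ = 1
  rw [map_Yf]
  have : ((QuotientGroup.mk' M).comp (mk' i w)) (ww i w) = 1 := (QuotientGroup.eq_one_iff _).2 h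
  rw [this]
  rcases k with s | j
  · simp [Yf, ys]
  · simp [Yf, xj]

lemma XY_of_Y (M : Subgroup (GG i w)) [hM : M.Normal] (k : Out i ⊕ Lt (Out i))
    (h : mk' i w (Yf (ww i w) (bb i) k) ∈ M) :
    mk' i w (Xf (ww i w) (rr i) (bb i) k) * (mk' i w (Yf (ww i w) (bb i) k))⁻¹ ∈ M := by
  refine M.mul_mem ?_ (M.inv_mem h)
  rw [← mk'_conj] at h
  have := hM.conj_mem _ h (mk' i w (tt i))⁻¹
  simpa [mul_assoc] using this

/-- `M = N` -/
lemma comm_crit (hL : L.Contractible) :
    (∀ x : FreeGroup L.V, mk' i w (wi L.V _ x) ∈ commutator (GG i w)) ∧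
      ∀ j, mk' i w (bb i j) ∈ commutator (GG i w) := by
  refine (crit i w hL (commutator (GG i w)) ?_).2
  intro k
  rw [← mk'_conj, ← QuotientGroup.eq_one_iff]
  generalize mk' i w (Xf (ww i w) (rr i) (bb i) k) = a
  generalize mk' i w (tt i) = b
  rw [QuotientGroup.eq_one_iff, commutator_def]
  have : a * (b * a * b⁻¹)⁻¹ = ⁅a, b⁆ := by
    rw [commutatorElement_def]; group
  rw [this]
  exact Subgroup.commutator_mem_commutator (Subgroup.mem_top _) (Subgroup.mem_top _)

/-- The commutator subgroup is the normal closure of the image of `w`. -/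
lemma comm_eq (hL : L.Contractible) :
    commutator (GG i w) = Subgroup.normalClosure {hh i w} := by
  refine le_antisymm ?_ ?_
  · refine (crit i w hL _ fun k => XY_of_Y i w _ k (Y_mem i w _ ?_ k)).1
    exact Subgroup.subset_normalClosure rfl
  · rw [← Subgroup.normalClosure_subset_iff]
    rintro x rfl
    exact (comm_crit i w hL).1 _

/-- The commutator subgroup is perfect. -/
lemma comm_perfect (hL : L.Contractible) :
    ⁅commutator (GG i w), commutator (GG i w)⁆ = commutator (GG i w) := by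
  refine le_antisymm (Subgroup.commutator_le_left _ _) ?_
  have hc := comm_crit i w hL
  refine (crit i w hL _ fun k => XY_of_Y i w _ k ?_).1
  have hw : mk' i w (ww i w) ∈ commutator (GG i w) := hc.1 _
  rcases k with s | j
  · change mk' i w (ys (ww i w) (bb i) s) ∈ _
    rw [map_ys]
    have e : ys (mk' i w (ww i w)) (fun k => mk' i w (bb i k)) s =
        (mk' i w (bb i (Sum.inl s)))⁻¹ * ⁅(mk' i w (bb i (Sum.inr true)))⁻¹, mk' i w (ww i w)⁆ *
          ((mk' i w (bb i (Sum.inl s)))⁻¹)⁻¹ := by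
      rw [ys, commutatorElement_def]; group
    rw [e]
    refine Subgroup.Normal.conj_mem inferInstance _ ?_ _
    exact Subgroup.commutator_mem_commutator (Subgroup.inv_mem _ (hc.2 _)) hw
  · change mk' i w ((bb i j)⁻¹ * xj (ww i w) (bb i) j) ∈ _
    rw [map_mul, map_inv, map_xj]
    have hp : (mk' i w (bb i (pt j)))⁻¹ * mk' i w (ww i w) * mk' i w (bb i (pt j)) ∈
        commutator (GG i w) :=
      Subgroup.mul_mem _ (Subgroup.mul_mem _ (Subgroup.inv_mem _ (hc.2 _)) hw) (hc.2 _)
    have e : (mk' i w (bb i j))⁻¹ * xj (mk' i w (ww i w)) (fun k => mk' i w (bb i k)) j =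
        ⁅(mk' i w (bb i j))⁻¹,
          (mk' i w (bb i (pt j)))⁻¹ * mk' i w (ww i w) * mk' i w (bb i (pt j))⁆ := by
      rw [xj, commutatorElement_def]; group
    rw [e]
    exact Subgroup.commutator_mem_commutator (Subgroup.inv_mem _ (hc.2 _)) hp

end

end Pool.Agent.R655.LI
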