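import Pool.Agent.R655.LI.Asph

set_option autoImplicit false

/-!
Subcomplexes of contractible complexes with locally `p`-indicable fundamental groups are aspherical.
-/

namespace Pool.Agent.R655.LI

open Function
open Pool.Agent.Helper777.Prof (Wr mag mag_m)
open Pool.Agent.H40R2.Zd (fs fs_single)

/-- Every nontrivial finitely generated subgroup of `G` has a nontrivial homomorphism to `ℤ/p`
(to `ℤ` if `p = 0`). -/
def PInd (p : ℕ) (G : Type) [Group G] : Prop :=
  ∀ H : Subgroup G, H.FG → H ≠ ⊥ → ∃ f : H →* Multiplicative (ZMod p), f ≠ 1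

section bij
variable {L : Cx}

lemma bdry_surj (hL : L.Contractible) : Surjective L.bdry := by
  rw [← LinearMap.range_eq_top, eq_top_iff]
  have key : ∀ v : L.V, Finsupp.single v (1 : ℤ) ∈ LinearMap.range L.bdry := by
    intro v
    let M := LinearMap.range L.bdry
    let q : (L.V →₀ ℤ) →+ (L.V →₀ ℤ) ⧸ M := M.mkQ.toAddMonoidHom
    let f : FreeGroup L.V →* Multiplicative ((L.V →₀ ℤ) ⧸ M) :=
      (AddMonoidHom.toMultiplicative q).comp (expSum L.V)
    have hf : ∀ x ∈ Set.range L.r, FreeGroup.lift (fun v => f (FreeGroup.of v)) x = 1 := by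
      rintro _ ⟨j, rfl⟩
      have : FreeGroup.lift (fun v => f (FreeGroup.of v)) = f := by
        ext1 v
        simp
      rw [this]
      change Multiplicative.ofAdd (M.mkQ (expSum L.V (L.r j)).toAdd) = 1
      have : M.mkQ (expSum L.V (L.r j)).toAdd = 0 := by
        rw [Submodule.mkQ_apply, Submodule.Quotient.mk_eq_zero]
        refine ⟨Finsupp.single j 1, ?_⟩
        simp [Cx.bdry]
      rw [this]
      rfl
    have h1 := congrArg (PresentedGroup.toGroup hf) (hL.pi_eq_one (PresentedGroup.of v))
    rw [map_one, PresentedGroup.toGroup.of] at h1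
    have h2 : M.mkQ (expSum L.V (FreeGroup.of v)).toAdd = 0 := congrArg Multiplicative.toAdd h1
    rw [expSum_of, Submodule.mkQ_apply, Submodule.Quotient.mk_eq_zero] at h2
    exact h2
  intro x _
  induction x using Finsupp.induction_linear with
  | zero => exact Submodule.zero_mem _
  | add a b ha hb => exact Submodule.add_mem _ (ha trivial) (hb trivial)
  | single v z =>
    have : Finsupp.single v z = z • Finsupp.single v (1 : ℤ) := by simp
    rw [this]
    exact Submodule.smul_mem _ _ (key v)

/-- the classes of the relators over a commutative ring -/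
noncomputable def clk (k : Type) [CommRing k] (K : Cx) (w : FreeGroup K.V) : K.V → k :=
  fun v => (((expSum K.V w).toAdd v : ℤ) : k)

lemma clk_sub {K : Cx} (i : Sub K L) (k : Type) [CommRing k] (w : FreeGroup K.V) (v : K.V) :
    clk k L (FreeGroup.map i.v w) (i.v v) = clk k K w v := by
  have : (expSum L.V).comp (FreeGroup.map i.v) =
      (AddMonoidHom.toMultiplicative (Finsupp.mapDomain.addMonoidHom i.v)).comp (expSum K.V) := by
    ext v
    simp [expSum]
  have h := congrArg Multiplicative.toAdd (DFunLike.congr_fun this w)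
  have h' : (expSum L.V (FreeGroup.map i.v w)).toAdd =
      Finsupp.mapDomain i.v (expSum K.V w).toAdd := h
  unfold clk
  rw [h', Finsupp.mapDomain_apply i.v.injective]

lemma clk_sub' {K : Cx} (i : Sub K L) (k : Type) [CommRing k] (w : FreeGroup K.V) (v : L.V)
    (hv : v ∉ Set.range i.v) :
    clk k L (FreeGroup.map i.v w) v = 0 := by
  have : (expSum L.V).comp (FreeGroup.map i.v) =
      (AddMonoidHom.toMultiplicative (Finsupp.mapDomain.addMonoidHom i.v)).comp (expSum K.V) := by
    ext v
    simp [expSum]
  have h := congrArg Multiplicative.toAdd (DFunLike.congr_fun this w)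
  have h' : (expSum L.V (FreeGroup.map i.v w)).toAdd =
      Finsupp.mapDomain i.v (expSum K.V w).toAdd := h
  unfold clk
  rw [h', Finsupp.mapDomain_of_notMem_range _ _ hv, Int.cast_zero]

/-- The classes of the relators of a contractible complex are independent over every ring. -/
lemma clk_indep (hL : L.Contractible) (k : Type) [CommRing k] {S : Type} [Fintype S]
    (u : S → L.R) (hu : Injective u) (x : S → k)
    (hx : ∀ v, ∑ s, x s * clk k L (L.r (u s)) v = 0) : x = 0 := by
  classical
  let e := LinearEquiv.ofBijective L.bdry ⟨hL.bdry_inj, bdry_surj hL⟩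
  -- the inverse, coordinatewise
  have he : ∀ (j j' : L.R), (∑ v ∈ (expSum L.V (L.r j)).toAdd.support,
      (expSum L.V (L.r j)).toAdd v * e.symm (Finsupp.single v 1) j') =
        (Finsupp.single j (1 : ℤ)) j' := by
    intro j j'
    have h1 : e (Finsupp.single j 1) = (expSum L.V (L.r j)).toAdd := by
      change L.bdry (Finsupp.single j 1) = _
      simp [Cx.bdry]
    have h2 : (expSum L.V (L.r j)).toAdd = ∑ v ∈ (expSum L.V (L.r j)).toAdd.support,
        (expSum L.V (L.r j)).toAdd v • Finsupp.single v (1 : ℤ) := by
      conv_lhs => rw [← Finsupp.sum_single (expSum L.V (L.r j)).toAdd]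
      simp [Finsupp.sum]
    have h3 := congrArg e.symm h1
    rw [LinearEquiv.symm_apply_apply] at h3
    rw [h3]
    conv_rhs => rw [h2]
    rw [map_sum, Finsupp.finsetSum_apply]
    refine Finset.sum_congr rfl fun v _ => ?_
    rw [map_smul, Finsupp.smul_apply, smul_eq_mul]
  -- a finite set of all occurring letters
  let T : Finset L.V := Finset.univ.biUnion fun s : S => (expSum L.V (L.r (u s))).toAdd.support
  funext s₀
  have h4 : ∑ v ∈ T, (∑ s, x s * clk k L (L.r (u s)) v) *
      ((e.symm (Finsupp.single v 1) (u s₀) : ℤ) : k) = 0 := by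
    refine Finset.sum_eq_zero fun v _ => ?_
    rw [hx v, zero_mul]
  have h5 : ∑ v ∈ T, (∑ s, x s * clk k L (L.r (u s)) v) *
      ((e.symm (Finsupp.single v 1) (u s₀) : ℤ) : k) =
      ∑ s, x s * ((Finsupp.single (u s) (1 : ℤ) (u s₀) : ℤ) : k) := by
    simp_rw [Finset.sum_mul]
    rw [Finset.sum_comm]
    refine Finset.sum_congr rfl fun s _ => ?_
    rw [← he (u s) (u s₀)]
    have h6 : ∑ v ∈ (expSum L.V (L.r (u s))).toAdd.support,
        (expSum L.V (L.r (u s))).toAdd v * e.symm (Finsupp.single v 1) (u s₀) =
        ∑ v ∈ T, (expSum L.V (L.r (u s))).toAdd v * e.symm (Finsupp.single v 1) (u s₀) := by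
      refine Finset.sum_subset ?_ ?_
      · exact Finset.subset_biUnion_of_mem (fun s : S => (expSum L.V (L.r (u s))).toAdd.support)
          (Finset.mem_univ s)
      · intro v _ hv
        rw [Finsupp.notMem_support_iff.1 hv, zero_mul]
    rw [h6, Int.cast_sum, Finset.mul_sum]
    refine Finset.sum_congr rfl fun v _ => ?_
    rw [Int.cast_mul]
    unfold clk
    ring
  rw [h5] at h4
  rw [Finset.sum_eq_single s₀] at h4
  · simpa using h4
  · intro s _ hs
    rw [Finsupp.single_eq_of_ne (fun h => hs (hu h).symm), Int.cast_zero, mul_zero]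
  · intro h
    exact absurd (Finset.mem_univ _) h

end bij

section aug
variable {G : Type} [Group G]

/-- augmentation with values in `k` -/
noncomputable def augk (k G : Type) [CommRing k] [Group G] : MonoidAlgebra ℤ G →+* k :=
  (Int.castRingHom k).comp (MonoidAlgebra.lift ℤ ℤ G (1 : G →* ℤ)).toRingHom

lemma augk_single (k : Type) [CommRing k] (g : G) (z : ℤ) :
    augk k G (MonoidAlgebra.single g z) = z := by
  simp [augk]

lemma fox_aug (k : Type) [CommRing k] (K : Cx) (w : FreeGroup K.V) (v : K.V) :
    augk k K.Pi (fox K w v) = clk k K w v := by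
  classical
  let a : Wr ℤ K.Pi K.V →* Multiplicative (K.V → k) :=
    { toFun := fun x => Multiplicative.ofAdd fun v => augk k K.Pi (x.v v)
      map_one' := by
        change Multiplicative.ofAdd (fun v => augk k K.Pi 0) = 1
        simp only [map_zero]
        rfl
      map_mul' := fun x y => by
        change Multiplicative.ofAdd (fun v => augk k K.Pi
          ((x.v + (MonoidAlgebra.of ℤ K.Pi x.m) • y.v) v)) = _
        rw [← ofAdd_add]
        congr 1
        funext v
        simp only [Pi.add_apply, Pi.smul_apply, smul_eq_mul, map_add, map_mul,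
          MonoidAlgebra.of_apply, augk_single, Int.cast_one, one_mul] }
  let b : FreeGroup K.V →* Multiplicative (K.V → k) :=
    { toFun := fun w => Multiplicative.ofAdd (clk k K w)
      map_one' := by
        change Multiplicative.ofAdd (clk k K 1) = 1
        have : clk k K 1 = 0 := by
          funext v
          simp [clk]
        rw [this]
        rfl
      map_mul' := fun x y => by
        rw [← ofAdd_add]
        congr 1
        funext v
        simp [clk] }
  have hab : a.comp (mag (PresentedGroup.mk (Set.range K.r))) = b := by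
    ext1 v
    rw [MonoidHom.comp_apply]
    change Multiplicative.ofAdd _ = Multiplicative.ofAdd _
    congr 1
    funext u
    simp only [mag, FreeGroup.lift_apply_of]
    unfold clk
    rw [expSum_of]
    by_cases h : u = v
    · subst h
      rw [Pi.single_eq_same, Finsupp.single_eq_same, map_one, Int.cast_one]
    · rw [Pi.single_eq_of_ne h, Finsupp.single_eq_of_ne h, map_zero, Int.cast_zero]
  have h := congrArg Multiplicative.toAdd (DFunLike.congr_fun hab w)
  exact congrFun h v

end aug

section howie
variable {K L : Cx} (i : Sub K L) (hL : L.Contractible)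

/-- change of coefficients -/
noncomputable def cc (k G : Type) [CommRing k] [Group G] : MonoidAlgebra ℤ G →+* MonoidAlgebra k G :=
  MonoidAlgebra.mapRingHom G (Int.castRingHom k)

/-- augmentation over `k` -/
noncomputable def epk (k : Type) [CommRing k] : MonoidAlgebra k Unit →+* k :=
  (MonoidAlgebra.lift k k Unit (1 : Unit →* k)).toRingHom

lemma epk_single (k : Type) [CommRing k] (z : k) : epk k (MonoidAlgebra.single () z) = z := by
  simp [epk]

lemma epk_inj (k : Type) [CommRing k] (x : MonoidAlgebra k Unit) (h : epk k x = 0) : x = 0 := by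
  have : x = MonoidAlgebra.single () (x.coeff ()) := by
    ext
    simp
  rw [this, epk_single] at h
  rw [this, h]
  simp

lemma aug_comp (k G : Type) [Field k] [Group G] (x : MonoidAlgebra ℤ G) :
    epk k (fs k (1 : G →* Unit) (cc k G x)) = augk k G x := by
  induction x using MonoidAlgebra.induction_linear with
  | zero => simp only [map_zero]
  | add a b ha hb => rw [map_add, map_add, map_add, map_add, ha, hb]
  | single g z =>
    have h1 : fs k (1 : G →* Unit) (cc k G (MonoidAlgebra.single g z)) =
        MonoidAlgebra.single () (z : k) := by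
      rw [cc, MonoidAlgebra.mapRingHom_single, fs_single]
      rfl
    rw [h1, epk_single]
    exact (augk_single k g z).symm

include i hL in
theorem howie (k : Type) [Field k]
    (hG : Pool.Agent.H26R2.IdemLI.LocInd k (⊤ : Subgroup K.Pi))
    (c : K.R →₀ MonoidAlgebra ℤ K.Pi)
    (hc : Finsupp.linearCombination (MonoidAlgebra ℤ K.Pi) (fun j => fox K (K.r j)) c = 0)
    (j : K.R) : cc k K.Pi (c j) = 0 := by
  classical
  by_cases hj : j ∈ c.support
  swap
  · rw [Finsupp.notMem_support_iff.1 hj, map_zero]
  let S := {j // j ∈ c.support}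
  let A : Matrix S K.V (MonoidAlgebra k K.Pi) := fun s v => cc k K.Pi (fox K (K.r s.1) v)
  let r : S → MonoidAlgebra k K.Pi := fun s => cc k K.Pi (c s.1)
  have hker : (1 : K.Pi →* Unit).ker = ⊤ := MonoidHom.ker_one
  have hr : Matrix.vecMul r A = 0 := by
    funext v
    have h1 := congrFun hc v
    rw [Finsupp.linearCombination_apply, Finsupp.sum, Finset.sum_apply] at h1
    have h2 := congrArg (cc k K.Pi) h1
    rw [map_sum] at h2
    change ∑ s : S, r s * A s v = 0
    rw [← Finset.sum_coe_sort] at h2
    rw [← map_zero (cc k K.Pi)]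
    refine Eq.trans ?_ h2
    refine Finset.sum_congr rfl fun s _ => ?_
    rw [Pi.smul_apply, smul_eq_mul, map_mul]
  have h0 := Pool.Agent.H26R2.IdemLI.inj_of_map (1 : K.Pi →* Unit) (by rw [hker]; exact hG) A ?_ r hr
  · exact congrFun h0 ⟨j, hj⟩
  · intro x hx
    have h3 : ∀ v : K.V, ∑ s : S, epk k (x s) * clk k K (K.r s.1) v = 0 := by
      intro v
      have h4 := congrArg (epk k) (congrFun hx v)
      change epk k (∑ s : S, x s * fs k (1 : K.Pi →* Unit) (A s v)) = epk k 0 at h4
      rw [map_sum, map_zero] at h4
      rw [← h4]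
      refine Finset.sum_congr rfl fun s _ => ?_
      rw [map_mul, aug_comp, fox_aug]
    have h5 := clk_indep hL k (fun s : S => i.c s.1)
      (fun a b h => Subtype.ext (i.c.injective h)) (fun s => epk k (x s)) (by
        intro v
        by_cases hv : v ∈ Set.range i.v
        · obtain ⟨u, rfl⟩ := hv
          rw [← h3 u]
          refine Finset.sum_congr rfl fun s _ => ?_
          rw [← i.comm, clk_sub]
        · refine Finset.sum_eq_zero fun s _ => ?_
          rw [← i.comm, clk_sub' i k _ v hv, mul_zero])
    funext s
    exact epk_inj k _ (congrFun h5 s)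

end howie

end Pool.Agent.R655.LI
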