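import Pool.Agent.R655.LI.Emb

set_option autoImplicit false

/-!
The embedding theorem and the reduction.
-/

namespace Pool.Agent.R655.LI

open Function
open scoped commutatorElement

/-- `L - e` is a subcomplex of `L`. -/
def delSub (L : Cx) (e : L.R) : Sub (L.del e) L where
  v := Function.Embedding.refl _
  c := ⟨fun k => k.1, Subtype.val_injective⟩
  comm j := by
    change FreeGroup.map id _ = _
    rw [FreeGroup.map.id]
    rfl

lemma map_of {K L : Cx} (i : Sub K L) (v : K.V) :
    i.map (PresentedGroup.of v) = PresentedGroup.of (i.v v) :=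
  PresentedGroup.toGroup.of _

/-- composition of inclusions -/
def Sub.trans {K L M : Cx} (i : Sub K L) (j : Sub L M) : Sub K M where
  v := i.v.trans j.v
  c := i.c.trans j.c
  comm k := by
    change _ = M.r (j.c (i.c k))
    rw [← j.comm, ← i.comm, FreeGroup.map.comp]
    rfl

lemma map_trans {K L M : Cx} (i : Sub K L) (j : Sub L M) : (i.trans j).map = j.map.comp i.map := by
  refine PresentedGroup.ext fun v => ?_
  rw [MonoidHom.comp_apply, map_of, map_of, map_of]
  rfl

/-- `K` as a subcomplex of `L' - e` -/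
noncomputable def subBig {K L : Cx} (i : Sub K L) (w : FreeGroup K.V) :
    Sub K ((big i w).del (ee i w)) where
  v := i.v.trans ⟨Sum.inl, Sum.inl_injective⟩
  c := ⟨fun j => ⟨Sum.inl (i.c j), Sum.inl_ne_inr⟩, fun a b h =>
    i.c.injective (Sum.inl_injective (Subtype.ext_iff.1 h))⟩
  comm j := by
    refine Eq.trans ?_ (big_r_in i w j).symm
    rw [← i.comm, wi, FreeGroup.map.comp]
    rfl

lemma map_subBig {K L : Cx} (i : Sub K L) (w : FreeGroup K.V) :
    (subBig i w).map = phi i w := by
  refine PresentedGroup.ext fun v => ?_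
  rw [map_of, phi_of]
  rfl

/-- The property of the theorem. -/
def Good (K L L' : Cx) (t : L'.V) (e : L'.R) (s : Sub K (L'.del e)) : Prop :=
  L'.Contractible ∧ L'.r e = FreeGroup.of t ∧ (L.IsFin → L'.IsFin) ∧ Injective s.map ∧
    (∀ k, s.map k ∈ commutator (L'.del e).Pi) ∧
    ⁅commutator (L'.del e).Pi, commutator (L'.del e).Pi⁆ = commutator (L'.del e).Pi

theorem good_big (K L : Cx) (i : Sub K L) (hL : L.Contractible) (w : FreeGroup K.V)
    (h1 : Injective (phi i w)) :
    Good K L (big i w) (Sum.inr (Sum.inr ())) (ee i w) (subBig i w) := by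
  refine ⟨big_contractible i w hL, rfl,
    big_fin i w, ?_, ?_, comm_perfect i w hL⟩
  · rw [map_subBig]; exact h1
  · intro k
    obtain ⟨x, rfl⟩ := QuotientGroup.mk_surjective k
    have : phi i w (PresentedGroup.mk _ x) ∈ commutator (GG i w) := by
      rw [phi_mk]
      exact (comm_crit i w hL).1 _
    rw [map_subBig]
    exact this

theorem single (K L : Cx) (i : Sub K L) (hL : L.Contractible) (h : K.Pi) (h1 : h ≠ 1) :
    ∃ (L' : Cx) (t : L'.V) (e : L'.R) (s : Sub K (L'.del e)), Good K L L' t e s ∧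
      Subgroup.normalClosure {s.map h} = commutator (L'.del e).Pi := by
  obtain ⟨w, rfl⟩ := QuotientGroup.mk_surjective h
  refine ⟨big i w, Sum.inr (Sum.inr ()), ee i w, subBig i w,
    good_big K L i hL w (phi_inj i w h1), ?_⟩
  have : phi i w (PresentedGroup.mk _ w) = hh i w := phi_mk i w w
  refine Eq.trans ?_ (comm_eq i w hL).symm
  rw [← this, map_subBig]
  rfl

theorem finite_set (K L : Cx) (i : Sub K L) (hL : L.Contractible) (F : Set K.Pi) (hF : F.Finite)
    (h1 : (1 : K.Pi) ∉ F) :
    ∃ (L' : Cx) (t : L'.V) (e : L'.R) (s : Sub K (L'.del e)), Good K L L' t e s ∧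
      ∀ h ∈ F, Subgroup.normalClosure {s.map h} = commutator (L'.del e).Pi := by
  induction F, hF using Set.Finite.induction_on with
  | empty =>
    by_cases hK : ∃ h : K.Pi, h ≠ 1
    · obtain ⟨h, hh⟩ := hK
      obtain ⟨L', t, e, s, hG, _⟩ := single K L i hL h hh
      exact ⟨L', t, e, s, hG, fun h hh => absurd hh (Set.notMem_empty _)⟩
    · push Not at hK
      refine ⟨big i 1, Sum.inr (Sum.inr ()), ee i 1, subBig i 1, good_big K L i hL 1 ?_,
        fun h hh => absurd hh (Set.notMem_empty _)⟩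
      intro a b _
      rw [hK a, hK b]
  | @insert a F _ _ ih =>
    obtain ⟨L₁, t₁, e₁, s₁, ⟨g1, g2, g3, g4, g5, g6⟩, hN⟩ :=
      ih (fun h => h1 (Set.mem_insert_of_mem _ h))
    have ha : s₁.map a ≠ 1 := fun h => h1 (Set.mem_insert_iff.2
      (Or.inl ((g4 (h.trans (map_one s₁.map).symm)).symm)))
    obtain ⟨L₂, t₂, e₂, s₂, ⟨f1, f2, f3, f4, f5, f6⟩, hN₂⟩ :=
      single (L₁.del e₁) L₁ (delSub L₁ e₁) g1 (s₁.map a) ha
    refine ⟨L₂, t₂, e₂, s₁.trans s₂, ⟨f1, f2, fun h => f3 (g3 h), ?_, ?_, f6⟩, ?_⟩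
    · rw [map_trans]; exact f4.comp g4
    · rw [map_trans]; exact fun k => f5 _
    intro h hh
    rw [map_trans]
    rcases Set.mem_insert_iff.1 hh with rfl | hh
    · exact hN₂
    · refine le_antisymm ?_ ?_
      · refine Subgroup.normalClosure_le_normal ?_
        rintro x rfl
        exact f5 _
      · have k1 : commutator (L₁.del e₁).Pi ≤
            (Subgroup.normalClosure {s₂.map (s₁.map h)}).comap s₂.map := by
          rw [← hN h hh]
          refine Subgroup.normalClosure_le_normal ?_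
          rintro x rfl
          exact Subgroup.subset_normalClosure rfl
        rw [← hN₂]
        refine Subgroup.normalClosure_le_normal ?_
        rintro x rfl
        exact k1 (g5 a)

lemma fg_map {G A : Type} [Group G] [Group A] (ψ : G →* A) {H : Subgroup G} (h : H.FG) :
    (H.map ψ).FG := by
  classical
  obtain ⟨S, hS⟩ := h
  refine ⟨S.image ψ, ?_⟩
  rw [Finset.coe_image, ← MonoidHom.map_closure, hS]

theorem equiv (P : Cx → Prop) (hP : ∀ L L' : Cx, (L.IsFin → L'.IsFin) → P L → P L') :
    Question P ↔ Reduced P := by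
  constructor
  · intro h L e hL hPL _ _ hN
    refine ⟨(L.del e).Pi, inferInstance, (commutator (L.del e).Pi).subtype,
      h (L.del e) L (delSub L e) hL.1 hPL, ?_⟩
    intro h1
    refine hN ((Subgroup.eq_bot_iff_forall _).2 fun x hx => ?_)
    exact DFunLike.congr_fun h1 (⟨x, hx⟩ : commutator (L.del e).Pi)
  · intro hr K L i hL hPL H hfg hH
    obtain ⟨h, hhH, hh⟩ := (Subgroup.ne_bot_iff_exists_ne_one.1 hH : ∃ a : H, a ≠ 1) |>.elim
      fun a ha => (⟨a.1, a.2, fun h => ha (Subtype.ext h)⟩ : ∃ h : K.Pi, h ∈ H ∧ h ≠ 1)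
    obtain ⟨L', t, e, s, ⟨f1, f2, f3, f4, f5, f6⟩, hN⟩ := single K L i hL h hh
    have hne : commutator (L'.del e).Pi ≠ ⊥ := by
      intro hb
      have := f5 h
      rw [hb, Subgroup.mem_bot] at this
      exact hh (f4 (this.trans (map_one s.map).symm))
    obtain ⟨A, _, f, hA, hf⟩ := hr L' e ⟨f1, t, f2⟩ (hP L L' f3 hPL) f6 ⟨_, hN⟩ hne
    have hn : (commutator (L'.del e).Pi).Normal := inferInstance
    have hg : ∃ g : (L'.del e).Pi, f ⟨g * s.map h * g⁻¹, hn.conj_mem _ (f5 h) g⟩ ≠ 1 := by
      by_contra hc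
      push Not at hc
      have k1 : Subgroup.normalClosure {s.map h} ≤ f.ker.map (commutator (L'.del e).Pi).subtype := by
        refine (Subgroup.closure_le _).2 ?_
        intro x hx
        obtain ⟨y, hy, hxy⟩ := Group.mem_conjugatesOfSet_iff.1 hx
        obtain ⟨c, hc'⟩ := isConj_iff.1 hxy
        rw [Set.mem_singleton_iff.1 hy] at hc'
        subst hc'
        exact ⟨⟨_, hn.conj_mem _ (f5 h) c⟩, hc c, rfl⟩
      rw [hN] at k1
      apply hf
      ext x
      obtain ⟨y, hy, hxy⟩ := k1 x.2
      have : y = x := Subtype.ext hxy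
      rw [← this]
      exact hy
    obtain ⟨g, hg⟩ := hg
    let ψ : K.Pi →* A :=
      { toFun := fun k => f ⟨g * s.map k * g⁻¹, hn.conj_mem _ (f5 k) g⟩
        map_one' := by
          rw [← map_one f]
          congr 1
          ext
          simp
        map_mul' := fun a b => by
          rw [← map_mul f]
          congr 1
          ext
          simp }
    have hψ : ψ h ≠ 1 := hg
    obtain ⟨u, hu⟩ := hA (H.map ψ) (fg_map ψ hfg) (by
      intro hb
      have : ψ h ∈ H.map ψ := ⟨h, hhH, rfl⟩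
      rw [hb, Subgroup.mem_bot] at this
      exact hψ this)
    refine ⟨u.comp (ψ.subgroupMap H), hu.comp ?_⟩
    exact ψ.subgroupMap_surjective H

end Pool.Agent.R655.LI
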