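import Pool.Agent.R655.LI.Howie

set_option autoImplicit false

/-!
The normal form of non-aspherical subcomplexes of contractible complexes.
-/

namespace Pool.Agent.R655.LI

open Function
open Pool.Agent.H40R2.Zd (fs fs_single)

/-- coefficients -/
def cf {G : Type} (g : G) : MonoidAlgebra ℤ G →+ ℤ where
  toFun x := x.coeff g
  map_zero' := by simp
  map_add' := by simp

lemma zc {G : Type} (z : ℤ) (x : MonoidAlgebra ℤ G) (g : G) :
    (z • x).coeff g = z * x.coeff g := by
  have := map_zsmul (cf g) z x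
  rw [smul_eq_mul] at this
  exact this

section desc
variable {K : Cx}

lemma desc (p : ℕ) (c : K.R →₀ MonoidAlgebra ℤ K.Pi)
    (h : ∀ j g, (p : ℤ) ∣ (c j).coeff g) : ∃ c' : K.R →₀ MonoidAlgebra ℤ K.Pi, c = (p : ℤ) • c' := by
  refine ⟨c.mapRange (fun x => MonoidAlgebra.ofCoeff
    (x.coeff.mapRange (fun z => z / (p : ℤ)) (Int.zero_ediv _))) (by ext; simp), ?_⟩
  ext j g
  have := Int.mul_ediv_cancel' (h j g)
  rw [Finsupp.smul_apply, zc]
  simp [this]

lemma tf (p : ℕ) (hp : p ≠ 0) (x : K.V → MonoidAlgebra ℤ K.Pi) (h : (p : ℤ) • x = 0) : x = 0 := by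
  funext v
  ext g
  have h1 := congrArg (fun y => MonoidAlgebra.coeff y g) (congrFun h v)
  have h2 : (p : ℤ) * (x v).coeff g = 0 := by
    rw [← zc]
    exact h1
  rcases mul_eq_zero.1 h2 with h3 | h3
  · exact absurd (Nat.cast_eq_zero.1 h3) hp
  · simpa using h3

end desc

theorem asph_of_PInd {K L : Cx} (i : Sub K L) (hL : L.Contractible) (p : ℕ)
    (hp : p = 0 ∨ p.Prime) (hK : PInd p K.Pi) : Asph K := by
  unfold Asph
  rw [injective_iff_map_eq_zero]
  rcases hp with rfl | hp
  · intro c hc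
    have hG : Pool.Agent.H26R2.IdemLI.LocInd ℚ (⊤ : Subgroup K.Pi) := by
      intro H _ hfg hH
      obtain ⟨f, hf⟩ := hK H hfg hH
      let z : Multiplicative (ZMod 0) →* Multiplicative ℚ :=
        AddMonoidHom.toMultiplicative (Int.castAddHom ℚ)
      refine ⟨z.comp f, fun h => hf ?_⟩
      ext x
      have h1 := DFunLike.congr_fun h x
      have h2 : ((Multiplicative.toAdd (f x) : ℤ) : ℚ) = 0 := congrArg Multiplicative.toAdd h1
      exact congrArg Multiplicative.ofAdd (Int.cast_eq_zero.1 h2)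
    ext j g
    have h1 := howie i hL ℚ hG c hc j
    have h2 := congrArg (fun y => MonoidAlgebra.coeff y g) h1
    have h3 : (((c j).coeff g : ℤ) : ℚ) = 0 := by
      simpa [cc, MonoidAlgebra.coeff_mapRingHom] using h2
    have h4 := Int.cast_eq_zero.1 h3
    simpa using h4
  · have : Fact p.Prime := ⟨hp⟩
    have hG : Pool.Agent.H26R2.IdemLI.LocInd (ZMod p) (⊤ : Subgroup K.Pi) := by
      intro H _ hfg hH
      exact hK H hfg hH
    have h1 : ∀ c : K.R →₀ MonoidAlgebra ℤ K.Pi,
        Finsupp.linearCombination (MonoidAlgebra ℤ K.Pi) (fun j => fox K (K.r j)) c = 0 →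
        ∀ j g, (p : ℤ) ∣ (c j).coeff g := by
      intro c hc j g
      have h2 := congrArg (fun y => MonoidAlgebra.coeff y g) (howie i hL (ZMod p) hG c hc j)
      have h3 : (((c j).coeff g : ℤ) : ZMod p) = 0 := by
        simpa [cc, MonoidAlgebra.coeff_mapRingHom] using h2
      exact (ZMod.intCast_zmod_eq_zero_iff_dvd _ _).1 h3
    have h2 : ∀ n : ℕ, ∀ c : K.R →₀ MonoidAlgebra ℤ K.Pi,
        Finsupp.linearCombination (MonoidAlgebra ℤ K.Pi) (fun j => fox K (K.r j)) c = 0 →
        ∀ j g, (p : ℤ) ^ n ∣ (c j).coeff g := by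
      intro n
      induction n with
      | zero => intro c _ j g; simp
      | succ n ih =>
        intro c hc j g
        obtain ⟨c', rfl⟩ := desc p c (h1 c hc)
        rw [map_zsmul] at hc
        have h3 := ih c' (tf p hp.ne_zero _ hc) j g
        have h4 : (((p : ℤ) • c') j).coeff g = (p : ℤ) * (c' j).coeff g := by
          rw [Finsupp.smul_apply, zc]
        rw [h4, pow_succ']
        exact mul_dvd_mul_left _ h3
    intro c hc
    ext j g
    have h3 : (c j).coeff g = 0 := by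
      by_contra h
      obtain ⟨n, hn⟩ := (Int.finiteMultiplicity_iff.2
        ⟨by simpa using hp.ne_one, h⟩ : FiniteMultiplicity (p : ℤ) ((c j).coeff g))
      exact hn (h2 _ c hc j g)
    simpa using h3

/-- `N` has no nontrivial homomorphism to a locally `p`-indicable group. -/
def NoHom (p : ℕ) {G : Type} [Group G] (N : Subgroup G) : Prop :=
  ∀ (A : Type) [Group A], PInd p A → ∀ f : N →* A, f = 1

/-- `N` is the normal closure of one nontrivial element. -/
def OneGen {G : Type} [Group G] (N : Subgroup G) : Prop := ∃ h, h ≠ 1 ∧ NGen N h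

/-- Test pairs: a finite contractible complex `L` and a 2-cell `e` attached along a 1-cell such that
the commutator subgroup of `π₁(L - e)` is perfect, the normal closure of one nontrivial element, and
has no nontrivial homomorphism to a locally `p`-indicable group, for all `p ∈ P`. -/
def TestPair (P : Finset ℕ) (L : Cx) (e : L.R) : Prop :=
  OneCell L e ∧ L.IsFin ∧ Perf (NN L e) ∧ OneGen (NN L e) ∧ ∀ p ∈ P, NoHom p (NN L e)

/-- `K` is a `π₁`-injective subcomplex of a non-aspherical `L' - e`, `(L', e)` a test pair. -/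
def InBadTestPair (P : Finset ℕ) (K : Cx) : Prop :=
  ∃ (L' : Cx) (e : L'.R) (s : Sub K (L'.del e)), TestPair P L' e ∧ Injective s.map ∧
      ¬ Asph (L'.del e)

/-- Q1 (one-vertex complexes): the subcomplexes of finite contractible complexes are aspherical. -/
def Whitehead : Prop :=
  ∀ (K L : Cx) (_ : Sub K L), L.Contractible → L.IsFin → Asph K

lemma exists_bad (p : ℕ) {G : Type} [Group G] (h : ¬ PInd p G) :
    ∃ x : G, x ≠ 1 ∧ ∀ (A : Type) [Group A], PInd p A → ∀ f : G →* A, f x = 1 := by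
  by_contra hc
  push Not at hc
  apply h
  intro H hfg hH
  obtain ⟨h0, hhH, hh⟩ := (Subgroup.ne_bot_iff_exists_ne_one.1 hH : ∃ a : H, a ≠ 1) |>.elim
    fun a ha => (⟨a.1, a.2, fun h => ha (Subtype.ext h)⟩ : ∃ h : G, h ∈ H ∧ h ≠ 1)
  obtain ⟨A, _, hA, f, hf⟩ := hc h0 hh
  obtain ⟨u, hu⟩ := hA (H.map f) (fg_map f hfg) (by
    intro hb
    have : f h0 ∈ H.map f := ⟨h0, hhH, rfl⟩
    rw [hb, Subgroup.mem_bot] at this
    exact hf this)
  refine ⟨u.comp (f.subgroupMap H), fun hk => hu ?_⟩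
  ext x
  obtain ⟨y, rfl⟩ := f.subgroupMap_surjective H x
  exact DFunLike.congr_fun hk y

/-- nontrivial homomorphisms of the normal closure -/
lemma hom_trivial {G A K : Type} [Group G] [Group A] [Group K] (N : Subgroup G) (hn : N.Normal)
    (φ : K →* G) (hφ : ∀ k, φ k ∈ N) (h : K) (hN : Subgroup.normalClosure {φ h} = N)
    (hA : ∀ ψ : K →* A, ψ h = 1) (f : N →* A) : f = 1 := by
  have hc : ∀ g : G, f ⟨g * φ h * g⁻¹, hn.conj_mem _ (hφ h) g⟩ = 1 := by
    intro g
    let ψ : K →* A :=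
      { toFun := fun k => f ⟨g * φ k * g⁻¹, hn.conj_mem _ (hφ k) g⟩
        map_one' := by
          rw [← map_one f]
          congr 1
          ext
          simp
        map_mul' := fun a b => by
          rw [← map_mul f]
          congr 1
          ext
          simp }
    exact hA ψ
  have k1 : Subgroup.normalClosure {φ h} ≤ f.ker.map N.subtype := by
    refine (Subgroup.closure_le _).2 ?_
    intro x hx
    obtain ⟨y, hy, hxy⟩ := Group.mem_conjugatesOfSet_iff.1 hx
    obtain ⟨c, hc'⟩ := isConj_iff.1 hxy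
    rw [Set.mem_singleton_iff.1 hy] at hc'
    subst hc'
    exact ⟨⟨_, hn.conj_mem _ (hφ h) c⟩, hc c, rfl⟩
  rw [hN] at k1
  ext x
  obtain ⟨y, hy, hxy⟩ := k1 x.2
  have : y = x := Subtype.ext hxy
  rw [← this]
  exact hy

theorem test (P : Finset ℕ) (hP : ∀ p ∈ P, p = 0 ∨ p.Prime) (K L : Cx) (i : Sub K L)
    (hL : L.Contractible) (hf : L.IsFin) (hK : ¬ Asph K) : InBadTestPair P K := by
  classical
  have hP' : ∀ p ∈ insert 0 P, p = 0 ∨ p.Prime := by
    intro p hp
    rcases Finset.mem_insert.1 hp with rfl | hp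
    · exact Or.inl rfl
    · exact hP p hp
  have h1 : ∀ p : {p // p ∈ insert 0 P}, ∃ x : K.Pi, x ≠ 1 ∧
      ∀ (A : Type) [Group A], PInd p.1 A → ∀ f : K.Pi →* A, f x = 1 := fun p =>
    exists_bad p.1 fun h => hK (asph_of_PInd i hL p.1 (hP' p.1 p.2) h)
  choose x hx1 hx2 using h1
  obtain ⟨L', t, e, s, ⟨g1, g2, g3, g4, g5, g6⟩, hN⟩ := finite_set K L i hL (Set.range x)
    (Set.finite_range x) (by rintro ⟨p, hp⟩; exact hx1 p hp)
  refine ⟨L', e, s, ⟨⟨g1, t, g2⟩, g3 hf, g6, ?_, ?_⟩, g4, fun h => hK (asph_sub s g4 h)⟩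
  · let p0 : {p // p ∈ insert 0 P} := ⟨0, Finset.mem_insert_self _ _⟩
    refine ⟨s.map (x p0), fun h => hx1 p0 (g4 (h.trans (map_one s.map).symm)), hN _ ⟨p0, rfl⟩⟩
  · intro p hp A _ hA f
    let p1 : {p // p ∈ insert 0 P} := ⟨p, Finset.mem_insert_of_mem hp⟩
    exact hom_trivial _ inferInstance s.map g5 (x p1) (hN _ ⟨p1, rfl⟩)
      (fun ψ => hx2 p1 A hA ψ) f

theorem whitehead_iff (P : Finset ℕ) (hP : ∀ p ∈ P, p = 0 ∨ p.Prime) :
    Whitehead ↔ ∀ (L : Cx) (e : L.R), TestPair P L e → Asph (L.del e) := by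
  constructor
  · intro h L e hT
    exact h (L.del e) L (delSub L e) hT.1.1 hT.2.1
  · intro h K L i hL hf
    by_contra hK
    obtain ⟨L', e, s, hT, _, hn⟩ := test P hP K L i hL hf hK
    exact hn (h L' e hT)

end Pool.Agent.R655.LI
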