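import Pool.Agent.R655.LI.Main

set_option autoImplicit false

/-!
Elements of prime order in the fundamental groups of subcomplexes of contractible complexes.
-/

namespace Pool.Agent.R655.LI

open Function

/-- `π₁(K)` is torsion-free for all subcomplexes `K` of contractible complexes with the
property `P`. -/
def NoTors (P : Cx → Prop) : Prop :=
  ∀ (K L : Cx) (_ : Sub K L), L.Contractible → P L → ∀ h : K.Pi, IsOfFinOrder h → h = 1

/-- For contractible `L` with `P L` and `e` attached along a 1-cell: the commutator subgroup of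
`π₁(L - e)` is not perfect or not the normal closure of an element of prime order. -/
def NoTorsRed (P : Cx → Prop) : Prop :=
  ∀ (L : Cx) (e : L.R), OneCell L e → P L → Perf (NN L e) →
    ∀ h, (orderOf h).Prime → ¬ NGen (NN L e) h

/-- `K` is a `π₁`-injective subcomplex of `L' - e` with perfect commutator subgroup of `π₁(L' - e)`,
which is the normal closure of `h`. -/
def ThmOne (K L : Cx) (h : K.Pi) : Prop :=
  ∃ (L' : Cx) (e : L'.R) (s : Sub K (L'.del e)), OneCell L' e ∧ (L.IsFin → L'.IsFin) ∧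
    Embeds K L' e s ∧ Perf (NN L' e) ∧ NGen (NN L' e) (s.map h)

theorem thmOne (K L : Cx) (i : Sub K L) (hL : L.Contractible) (h : K.Pi) (h1 : h ≠ 1) :
    ThmOne K L h := by
  obtain ⟨L', t, e, s, ⟨g1, g2, g3, g4, g5, g6⟩, hN⟩ := single K L i hL h h1
  exact ⟨L', e, s, ⟨g1, t, g2⟩, g3, ⟨g4, g5⟩, g6, hN⟩

theorem noTors_iff (P : Cx → Prop) (hP : ∀ L L' : Cx, (L.IsFin → L'.IsFin) → P L → P L') :
    NoTors P ↔ NoTorsRed P := by
  constructor
  · intro h L e hL hPL _ x hx _
    have h2 := h (L.del e) L (delSub L e) hL.1 hPL x (orderOf_pos_iff.1 hx.pos)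
    rw [h2, orderOf_one] at hx
    exact Nat.not_prime_one hx
  · intro h K L i hL hPL y hy
    by_contra hy1
    obtain ⟨p, hp, hpd⟩ := Nat.exists_prime_and_dvd
      (fun h => hy1 (orderOf_eq_one_iff.1 h) : orderOf y ≠ 1)
    obtain ⟨x, hx⟩ : ∃ x : K.Pi, (orderOf x).Prime := by
      refine ⟨y ^ (orderOf y / p), ?_⟩
      rw [orderOf_pow_orderOf_div (orderOf_pos_iff.2 hy).ne' hpd]
      exact hp
    have h1 : x ≠ 1 := by
      rintro rfl
      rw [orderOf_one] at hx
      exact Nat.not_prime_one hx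
    obtain ⟨L', e, s, g1, g3, g4, g6, hN⟩ := thmOne K L i hL x h1
    refine h L' e g1 (hP L L' g3 hPL) g6 (s.map x) ?_ hN
    rw [orderOf_injective s.map g4.1]
    exact hx

end Pool.Agent.R655.LI
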